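import Mathlib

/-!
Board GT for MP_43df1d_lc, basic definitions.

`R = F₂[T^±]`, Philip Hall's group `Hal` (the Heisenberg group over `R` extended by `T`), its central
quotients, words, universal sentences in clause form, the space of marked groups in the conventions of the
frozen statement S14643.
-/

set_option autoImplicit false

namespace Pool.Agent.Lib.MP_43df1d_lc.GT

/-! ### The ring `R = F₂[T^±]` -/

/-- `F₂[T^±]` -/
abbrev R : Type := AddMonoidAlgebra (ZMod 2) ℤ

/-- the monomial `T ^ n` -/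
noncomputable def te (n : ℤ) : R := AddMonoidAlgebra.single n 1

@[simp] theorem te_zero : te 0 = 1 := rfl

theorem te_add (m n : ℤ) : te (m + n) = te m * te n := by
  rw [te, te, te, AddMonoidAlgebra.single_mul_single, mul_one]

@[simp] theorem te_ne_zero (n : ℤ) : te n ≠ 0 := AddMonoidAlgebra.single_ne_zero.2 one_ne_zero

@[simp] theorem te_mul_neg (n : ℤ) : te n * te (-n) = 1 := by rw [← te_add]; simp

@[simp] theorem te_neg_mul (n : ℤ) : te (-n) * te n = 1 := by rw [← te_add]; simp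

@[simp] theorem add_self (f : R) : f + f = 0 := by
  ext n
  simpa using CharTwo.add_self_eq_zero (f.coeff n)

theorem neg_eq (f : R) : -f = f := neg_eq_of_add_eq_zero_left (add_self f)

theorem coeff_te (m n : ℤ) : (te m).coeff n = if m = n then 1 else 0 := by
  simp [te, AddMonoidAlgebra.coeff_single, Finsupp.single_apply]

/-- the support of `f` lies in `[-D, D]` -/
def Sup (D : ℕ) (f : R) : Prop := ∀ n : ℤ, f.coeff n ≠ 0 → |n| ≤ (D : ℤ)

/-! ### Hall's group -/

/-- `(k, a, b, c)`: the matrix of rows `(1, a, c), (0, T^k, b), (0, 0, 1)` up to normalisation -/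
@[ext] structure Hal where
  k : ℤ
  a : R
  b : R
  c : R

namespace Hal

noncomputable instance : Mul Hal :=
  ⟨fun x y => ⟨x.k + y.k, y.a + x.a * te y.k, te x.k * y.b + x.b, x.c + y.c + x.a * y.b⟩⟩

noncomputable instance : One Hal := ⟨⟨0, 0, 0, 0⟩⟩

noncomputable instance : Inv Hal :=
  ⟨fun x => ⟨-x.k, x.a * te (-x.k), te (-x.k) * x.b, x.c + x.a * te (-x.k) * x.b⟩⟩

@[simp] theorem mul_k (x y : Hal) : (x * y).k = x.k + y.k := rfl
@[simp] theorem mul_a (x y : Hal) : (x * y).a = y.a + x.a * te y.k := rfl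
@[simp] theorem mul_b (x y : Hal) : (x * y).b = te x.k * y.b + x.b := rfl
@[simp] theorem mul_c (x y : Hal) : (x * y).c = x.c + y.c + x.a * y.b := rfl
@[simp] theorem one_k : (1 : Hal).k = 0 := rfl
@[simp] theorem one_a : (1 : Hal).a = 0 := rfl
@[simp] theorem one_b : (1 : Hal).b = 0 := rfl
@[simp] theorem one_c : (1 : Hal).c = 0 := rfl
@[simp] theorem inv_k (x : Hal) : (x⁻¹).k = -x.k := rfl
@[simp] theorem inv_a (x : Hal) : (x⁻¹).a = x.a * te (-x.k) := rfl
@[simp] theorem inv_b (x : Hal) : (x⁻¹).b = te (-x.k) * x.b := rfl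
@[simp] theorem inv_c (x : Hal) : (x⁻¹).c = x.c + x.a * te (-x.k) * x.b := rfl

noncomputable instance : Group Hal :=
  Group.ofLeftAxioms
    (by
      intro x y z
      ext1
      · simp [add_assoc]
      · simp only [mul_a, mul_k, te_add]; ring
      · simp only [mul_b, mul_k, te_add]; ring
      · simp only [mul_c, mul_a, mul_b]; ring)
    (by intro x; ext1 <;> simp)
    (by
      intro x
      ext1
      · simp
      · simp only [mul_a, inv_a, one_a, mul_assoc, te_neg_mul, mul_one, add_self]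
      · simp only [mul_b, inv_b, inv_k, one_b, add_self]
      · simp only [mul_c, inv_c, inv_a, one_c]
        linear_combination add_self x.c + add_self (x.a * te (-x.k) * x.b))

end Hal

/-- `x` lies in the centre part `{(0, 0, 0, c)}` -/
def Ctr (x : Hal) : Prop := x.k = 0 ∧ x.a = 0 ∧ x.b = 0

theorem Ctr.one : Ctr 1 := ⟨rfl, rfl, rfl⟩

theorem Ctr.mul {x y : Hal} (hx : Ctr x) (hy : Ctr y) : Ctr (x * y) :=
  ⟨by simp [hx.1, hy.1], by simp [hx.2.1, hy.2.1], by simp [hx.2.2, hy.2.2]⟩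

theorem Ctr.inv {x : Hal} (hx : Ctr x) : Ctr x⁻¹ :=
  ⟨by simp [hx.1], by simp [hx.2.1], by simp [hx.2.2]⟩

theorem Ctr.comm {x : Hal} (hx : Ctr x) (y : Hal) : x * y = y * x := by
  ext1
  · simp [hx.1]
  · simp [hx.1, hx.2.1]
  · simp [hx.1, hx.2.2]
  · simp [hx.2.1, hx.2.2, add_comm]

theorem Ctr.c_mul {x y : Hal} (hx : Ctr x) : (x * y).c = x.c + y.c := by simp [hx.2.1]

theorem Ctr.c_inv {x : Hal} (hx : Ctr x) : (x⁻¹).c = x.c := by simp [hx.2.1]

/-- the central subgroup `{(0, 0, 0, c) | c ∈ Y}` -/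
noncomputable def cen (Y : AddSubgroup R) : Subgroup Hal where
  carrier := {x | Ctr x ∧ x.c ∈ Y}
  one_mem' := ⟨Ctr.one, Y.zero_mem⟩
  mul_mem' := by
    rintro x y ⟨hx, hx'⟩ ⟨hy, hy'⟩
    exact ⟨hx.mul hy, by rw [hx.c_mul]; exact Y.add_mem hx' hy'⟩
  inv_mem' := by
    rintro x ⟨hx, hx'⟩
    exact ⟨hx.inv, by rw [hx.c_inv]; exact hx'⟩

theorem mem_cen {Y : AddSubgroup R} {x : Hal} : x ∈ cen Y ↔ Ctr x ∧ x.c ∈ Y := Iff.rfl

instance cen_normal (Y : AddSubgroup R) : (cen Y).Normal :=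
  ⟨fun x hx g => by rw [← (mem_cen.1 hx).1.comm g, mul_inv_cancel_right]; exact hx⟩

/-! ### Words and sentences -/

/-- words: letters `(i, true)` for `x_i` and `(i, false)` for its inverse -/
abbrev Wd : Type := List (ℕ × Bool)

/-- the value of a word -/
def wval {G : Type} [Group G] (x : ℕ → G) : Wd → G
  | [] => 1
  | (i, b) :: w => (if b then x i else (x i)⁻¹) * wval x w

theorem wval_append {G : Type} [Group G] (x : ℕ → G) (u v : Wd) : wval x (u ++ v) = wval x u * wval x v := by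
  induction u with
  | nil => simp [wval]
  | cons c u ih => simp [wval, ih, mul_assoc]

theorem wval_flatten {G : Type} [Group G] (x : ℕ → G) (l : List Wd) :
    wval x l.flatten = (l.map (wval x)).prod := by
  induction l with
  | nil => simp [wval]
  | cons c u ih => simp [wval_append, ih]

theorem wval_map {G H : Type} [Group G] [Group H] (φ : G →* H) (x : ℕ → G) (w : Wd) :
    wval (fun i => φ (x i)) w = φ (wval x w) := by
  induction w with
  | nil => simp [wval]
  | cons c u ih => rcases c with ⟨i, b⟩; cases b <;> simp [wval, ih]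

/-- size of a word: bounds its length and (strictly) its letters -/
def szW : Wd → ℕ
  | [] => 0
  | c :: w => c.1 + 1 + szW w

/-- size of a list of words -/
def szL : List Wd → ℕ
  | [] => 0
  | w :: l => szW w + 1 + szL l

/-- universal sentences in clause form: `∀ x, ⋀_{p ∈ σ} (⋀_{r ∈ p.1} r(x) = 1 → ⋁_{w ∈ p.2} w(x) = 1)` -/
abbrev USent : Type := List (List Wd × List Wd)

def USent.holds (σ : USent) (G : Type) [Group G] : Prop :=
  ∀ x : ℕ → G, ∀ p ∈ σ, (∀ r ∈ p.1, wval x r = 1) → ∃ w ∈ p.2, wval x w = 1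

/-- Boolean combinations (conjunctive normal form) of universal sentences -/
abbrev BSent : Type := List (List (Bool × USent))

def BSent.holds (β : BSent) (G : Type) [Group G] : Prop :=
  ∀ c ∈ β, ∃ l ∈ c, (l.1 = true ∧ USent.holds l.2 G) ∨ (l.1 = false ∧ ¬ USent.holds l.2 G)

/-! ### Solvability of systems in the central quotients -/

/-- some `Hal / cen Y` solves `r(x) = 1` (`r ∈ p.1`), `w(x) ≠ 1` (`w ∈ p.2`) -/
def SatY (p : List Wd × List Wd) : Prop :=
  ∃ (Y : AddSubgroup R) (x : ℕ → Hal), (∀ r ∈ p.1, wval x r ∈ cen Y) ∧ ∀ w ∈ p.2, wval x w ∉ cen Y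

/-- the words `w · r₁ ⋯ r_t` with `w` in `C` and `r₁, …, r_t` a sublist of `Rel` -/
def vws (Rel C : List Wd) : List Wd := C.flatMap fun w => Rel.sublists.map fun T => w ++ T.flatten

/-- `x` makes all relators central and all words of `V` nontrivial -/
def Sol (x : ℕ → Hal) (Rel V : List Wd) : Prop := (∀ r ∈ Rel, Ctr (wval x r)) ∧ ∀ v ∈ V, wval x v ≠ 1

/-! ### Formal exponents -/

/-- the group ring `F₂[ℤ^N]` -/
abbrev P (N : ℕ) : Type := AddMonoidAlgebra (ZMod 2) (Fin N → ℤ)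

/-- `ℓ ↦ ∑ ℓ_i k_i` -/
def dot {N : ℕ} (k : Fin N → ℤ) : (Fin N → ℤ) →+ ℤ where
  toFun ℓ := ∑ i, ℓ i * k i
  map_zero' := by simp
  map_add' := by intro a b; simp [add_mul, Finset.sum_add_distrib]

theorem dot_apply {N : ℕ} (k ℓ : Fin N → ℤ) : dot k ℓ = ∑ i, ℓ i * k i := rfl

/-- `T^ℓ ↦ T^(ℓ · k)` -/
noncomputable def phi {N : ℕ} (k : Fin N → ℤ) : P N →+* R := AddMonoidAlgebra.mapDomainRingHom (ZMod 2) (dot k)

/-- elements of `P N` supported in the box of radius `h` -/
def Bx (N h : ℕ) : Set (P N) := {Φ | ∀ ℓ : Fin N → ℤ, Φ.coeff ℓ ≠ 0 → ∀ i, |ℓ i| ≤ (h : ℤ)}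

/-- the formal data of a word in `N` letters -/
structure Fm (N : ℕ) where
  l : Fin N → ℤ
  A : Fin N → P N
  B : Fin N → P N
  G : Fin N → Fin N → P N
  lam : Fin N → ZMod 2

/-- `F` is bounded by `h` -/
structure Fm.Bdd {N : ℕ} (F : Fm N) (h : ℕ) : Prop where
  l : ∀ i, |F.l i| ≤ (h : ℤ)
  A : ∀ i, F.A i ∈ Bx N h
  B : ∀ i, F.B i ∈ Bx N h
  G : ∀ i j, F.G i j ∈ Bx N h

/-- `F` computes `g` at the tuple `x` -/
structure Fm.Val {N : ℕ} (F : Fm N) (x : Fin N → Hal) (g : Hal) : Prop where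
  k : g.k = dot (fun i => (x i).k) F.l
  a : g.a = ∑ i, phi (fun i => (x i).k) (F.A i) * (x i).a
  b : g.b = ∑ i, phi (fun i => (x i).k) (F.B i) * (x i).b
  c : g.c = ∑ i, ∑ j, phi (fun i => (x i).k) (F.G i j) * ((x i).a * (x j).b) + ∑ i, F.lam i • (x i).c

/-! ### The generators of `Hal` -/

/-- `0 ↦ τ`, `1 ↦ α`, `2 ↦ β`, all other letters to `1` -/
noncomputable def gen : ℕ → Hal
  | 0 => ⟨1, 0, 0, 0⟩
  | 1 => ⟨0, 1, 0, 0⟩
  | 2 => ⟨0, 0, 1, 0⟩
  | _ => 1

/-! ### The space of marked groups, in the conventions of S14643 -/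

/-- the topology of the frozen statement -/
@[reducible] def tau : TopologicalSpace (FreeGroup ℕ → Bool) :=
  TopologicalSpace.generateFrom
    ({U | @IsOpen (FreeGroup ℕ → Bool) Pi.topologicalSpace U} ∪
      {V | ∃ m : ℕ, V = {f | ∀ i : ℕ, m ≤ i → f (FreeGroup.of i) = true}})

/-- `P` holds for a comeager set of marked groups in `S` -/
def Gen (S : Set (FreeGroup ℕ → Bool)) (P : (G : Type) → [Group G] → Prop) : Prop :=
  ∃ U : ℕ → Set (FreeGroup ℕ → Bool),
    (∀ i, @IsOpen _ tau (U i) ∧ S ⊆ @closure _ tau (S ∩ U i)) ∧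
    ∀ f ∈ S, (∀ i, f ∈ U i) →
      ∀ (N : Subgroup (FreeGroup ℕ)) [N.Normal], (∀ w, w ∈ N ↔ f w = true) → P (FreeGroup ℕ ⧸ N)

/-- nonempty perfect subsets of the space of finitely generated marked groups -/
structure IsPerf (S : Set (FreeGroup ℕ → Bool)) : Prop where
  ne : S.Nonempty
  mark : ∀ f ∈ S, (∃ N : Subgroup (FreeGroup ℕ), N.Normal ∧ ∀ w, w ∈ N ↔ f w = true) ∧
    ∃ m : ℕ, ∀ i : ℕ, m ≤ i → f (FreeGroup.of i) = true
  closed : ∀ f : FreeGroup ℕ → Bool,
    (∃ N : Subgroup (FreeGroup ℕ), N.Normal ∧ ∀ w, w ∈ N ↔ f w = true) →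
    (∃ m : ℕ, ∀ i : ℕ, m ≤ i → f (FreeGroup.of i) = true) → f ∈ @closure _ tau S → f ∈ S
  perf : ∀ f ∈ S, f ∈ @closure _ tau (S \ {f})

/-- the homomorphism from the free group onto `Hal` -/
noncomputable def pr : FreeGroup ℕ →* Hal := FreeGroup.lift gen

open Classical in
/-- the marked group `Hal / cen Y` as a point of the space -/
noncomputable def pt (Y : AddSubgroup R) : FreeGroup ℕ → Bool := fun w => decide (pr w ∈ cen Y)

/-- the set of the marked groups `Hal / cen Y` -/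
noncomputable def SH : Set (FreeGroup ℕ → Bool) := Set.range pt

end Pool.Agent.Lib.MP_43df1d_lc.GT
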