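import Pool.Agent.Lib.MP_43df1d_lc.GT.Iface

/-!
MP_43df1d_lc, board GT, row BND.
-/

set_option autoImplicit false

namespace Pool.Agent.Lib.MP_43df1d_lc.GT

namespace BND

variable {f g h : ℕ → ℕ}

theorem add (hf : Primrec f) (hg : Primrec g) : Primrec fun s => f s + g s :=
  Primrec.nat_add.comp hf hg

theorem mul (hf : Primrec f) (hg : Primrec g) : Primrec fun s => f s * g s :=
  Primrec.nat_mul.comp hf hg

theorem pow2 : Primrec₂ (fun a b : ℕ => a ^ b) :=
  Primrec₂.unpaired'.1 Nat.Primrec.pow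

theorem pow (hf : Primrec f) (hg : Primrec g) : Primrec fun s => f s ^ g s :=
  pow2.comp hf hg

theorem c (n : ℕ) : Primrec fun _ : ℕ => n := Primrec.const n

theorem ee (hf : Primrec f) (hg : Primrec g) (hh : Primrec h) :
    Primrec fun s => EE (f s) (g s) (h s) :=
  mul (add hg (c 1)) (add (add (mul (pow (c 2) hg) (add hh (c 1))) hf) (c 2))

theorem pb (hf : Primrec f) (hg : Primrec g) : Primrec fun s => PB (f s) (g s) := by
  have h1 : Primrec fun s => (2 * g s + 1) ^ f s := pow (add (mul (c 2) hg) (c 1)) hf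
  exact pow (add (c 1) (mul (add (mul hf hg) (c 1)) (pow (c 2) (ee hf h1 hg)))) h1

theorem cb : Primrec CB := by
  have i : Primrec fun s : ℕ => s := Primrec.id
  exact pb i (mul (c 2) (add (mul (c 2) (ee i i i)) i))

theorem sb : Primrec SB := by
  have i : Primrec fun s : ℕ => s := Primrec.id
  exact mul (pow (c 14) (mul i (pow (c 2) i)))
    (add (add (mul (mul i cb) (ee i i i)) (mul (c 6) (mul (mul i i) cb))) (c 3))

end BND

open BND in
theorem bnd : BndS :=
  mul (c 40) (pow (add (add cb sb) (c 1)) (c 2))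

end Pool.Agent.Lib.MP_43df1d_lc.GT
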