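import Pool.Agent.Lib.MP_43df1d_lc.GT.Iface

/-!
Board GT, row COMP (helper84): the word problem of `Hal` and of `Hal / centre` is primitive recursive.
-/

set_option autoImplicit false

namespace Pool.Agent.Lib.MP_43df1d_lc.GT

namespace COMP

open Primrec

/-- the integer of a pair -/
def vz (p : ℕ × ℕ) : ℤ := (p.1 : ℤ) - p.2

/-- the element of `R` of a list of pairs -/
noncomputable def rR (L : List (ℕ × ℕ)) : R := (L.map fun x => te (vz x)).sum

abbrev St : Type := (ℕ × ℕ) × List (ℕ × ℕ) × List (ℕ × ℕ) × List (ℕ × ℕ)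

noncomputable def val (s : St) : Hal := ⟨vz s.1, rR s.2.1, rR s.2.2.1, rR s.2.2.2⟩

def up (p : ℕ × ℕ) : ℕ × ℕ := (p.1 + 1, p.2)

def dn (p : ℕ × ℕ) : ℕ × ℕ := (p.1, p.2 + 1)

/-- the action of a letter -/
def step (c : ℕ × Bool) (s : St) : St :=
  if c.1 = 0 then
    (if c.2 = true then (up s.1, s.2.1, s.2.2.1.map up, s.2.2.2)
      else (dn s.1, s.2.1, s.2.2.1.map dn, s.2.2.2))
  else if c.1 = 1 then (s.1, s.1 :: s.2.1, s.2.2.1, s.2.2.1 ++ s.2.2.2)
  else if c.1 = 2 then (s.1, s.2.1, (0, 0) :: s.2.2.1, s.2.2.2)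
  else s

def s0 : St := ((0, 0), [], [], [])

def run (u : Wd) : St := u.foldr (fun c s => step c s) s0

theorem vz_up (p : ℕ × ℕ) : vz (up p) = 1 + vz p := by
  unfold vz up; push_cast; ring

theorem vz_dn (p : ℕ × ℕ) : vz (dn p) = -1 + vz p := by
  unfold vz dn; push_cast; ring

theorem rR_nil : rR [] = 0 := rfl

theorem rR_cons (x : ℕ × ℕ) (L : List (ℕ × ℕ)) : rR (x :: L) = te (vz x) + rR L := by
  unfold rR; rw [List.map_cons, List.sum_cons]

theorem rR_append (L L' : List (ℕ × ℕ)) : rR (L ++ L') = rR L + rR L' := by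
  unfold rR; rw [List.map_append, List.sum_append]

theorem rR_up (L : List (ℕ × ℕ)) : rR (L.map up) = te 1 * rR L := by
  induction L with
  | nil => rw [List.map_nil, rR_nil, mul_zero]
  | cons x L ih => rw [List.map_cons, rR_cons, rR_cons, vz_up, te_add, ih, mul_add]

theorem rR_dn (L : List (ℕ × ℕ)) : rR (L.map dn) = te (-1) * rR L := by
  induction L with
  | nil => rw [List.map_nil, rR_nil, mul_zero]
  | cons x L ih => rw [List.map_cons, rR_cons, rR_cons, vz_dn, te_add, ih, mul_add]

theorem val_s0 : val s0 = 1 := by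
  ext1
  · show vz (0, 0) = 0
    unfold vz; simp
  · rfl
  · rfl
  · rfl

theorem val_step (c : ℕ × Bool) (s : St) :
    val (step c s) = (if c.2 then gen c.1 else (gen c.1)⁻¹) * val s := by
  obtain ⟨i, b⟩ := c
  rcases i with _ | _ | _ | i
  · cases b
    · ext1
      · show vz (dn s.1) = -1 + vz s.1
        exact vz_dn _
      · show rR s.2.1 = rR s.2.1 + 0 * te (-1) * te (vz s.1)
        rw [zero_mul, zero_mul, add_zero]
      · show rR (s.2.2.1.map dn) = te (-1) * rR s.2.2.1 + te (-1) * 0
        rw [rR_dn, mul_zero, add_zero]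
      · show rR s.2.2.2 = (0 + 0 * te (-1) * 0) + rR s.2.2.2 + (0 * te (-1)) * rR s.2.2.1
        simp only [zero_mul, add_zero, zero_add]
    · ext1
      · show vz (up s.1) = 1 + vz s.1
        exact vz_up _
      · show rR s.2.1 = rR s.2.1 + 0 * te (vz s.1)
        rw [zero_mul, add_zero]
      · show rR (s.2.2.1.map up) = te 1 * rR s.2.2.1 + 0
        rw [rR_up, add_zero]
      · show rR s.2.2.2 = 0 + rR s.2.2.2 + 0 * rR s.2.2.1
        rw [zero_mul, add_zero, zero_add]
  · cases b
    · ext1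
      · show vz s.1 = -0 + vz s.1
        rw [neg_zero, zero_add]
      · show rR (s.1 :: s.2.1) = rR s.2.1 + (1 * te (-0)) * te (vz s.1)
        rw [rR_cons, neg_zero, te_zero, one_mul, one_mul, add_comm]
      · show rR s.2.2.1 = te (-0) * rR s.2.2.1 + te (-0) * 0
        rw [neg_zero, te_zero, one_mul, one_mul, add_zero]
      · show rR (s.2.2.1 ++ s.2.2.2) = (0 + 1 * te (-0) * 0) + rR s.2.2.2 + (1 * te (-0)) * rR s.2.2.1
        rw [rR_append, neg_zero, te_zero, one_mul, one_mul, one_mul, add_zero, zero_add, add_comm]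
    · ext1
      · show vz s.1 = 0 + vz s.1
        rw [zero_add]
      · show rR (s.1 :: s.2.1) = rR s.2.1 + 1 * te (vz s.1)
        rw [rR_cons, one_mul, add_comm]
      · show rR s.2.2.1 = te 0 * rR s.2.2.1 + 0
        rw [te_zero, one_mul, add_zero]
      · show rR (s.2.2.1 ++ s.2.2.2) = 0 + rR s.2.2.2 + 1 * rR s.2.2.1
        rw [rR_append, one_mul, zero_add, add_comm]
  · have hz : vz (0, 0) = 0 := by unfold vz; simp
    cases b
    · ext1
      · show vz s.1 = -0 + vz s.1
        rw [neg_zero, zero_add]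
      · show rR s.2.1 = rR s.2.1 + (0 * te (-0)) * te (vz s.1)
        rw [zero_mul, zero_mul, add_zero]
      · show rR ((0, 0) :: s.2.2.1) = te (-0) * rR s.2.2.1 + te (-0) * 1
        rw [rR_cons, hz, neg_zero, te_zero, one_mul, one_mul, add_comm]
      · show rR s.2.2.2 = (0 + 0 * te (-0) * 1) + rR s.2.2.2 + (0 * te (-0)) * rR s.2.2.1
        simp only [zero_mul, add_zero, zero_add]
    · ext1
      · show vz s.1 = 0 + vz s.1
        rw [zero_add]
      · show rR s.2.1 = rR s.2.1 + 0 * te (vz s.1)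
        rw [zero_mul, add_zero]
      · show rR ((0, 0) :: s.2.2.1) = te 0 * rR s.2.2.1 + 1
        rw [rR_cons, hz, te_zero, one_mul, add_comm]
      · show rR s.2.2.2 = 0 + rR s.2.2.2 + 0 * rR s.2.2.1
        rw [zero_mul, add_zero, zero_add]
  · have h1 : step (i + 1 + 1 + 1, b) s = s := by
      unfold step
      rw [if_neg (by simp), if_neg (by simp), if_neg (by simp)]
    have h2 : gen (i + 1 + 1 + 1) = 1 := rfl
    rw [h1]
    show val s = (if b then gen (i + 1 + 1 + 1) else (gen (i + 1 + 1 + 1))⁻¹) * val s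
    rw [h2, inv_one, ite_self, one_mul]

theorem val_run (u : Wd) : val (run u) = wval gen u := by
  induction u with
  | nil => exact val_s0
  | cons c u ih =>
    show val (step c (run u)) = _
    rw [val_step, ih]
    rfl

/-! ### the zero test -/

theorem coeff_rR (L : List (ℕ × ℕ)) (n : ℤ) :
    (rR L).coeff n = ((L.filter (fun y => vz y = n)).length : ZMod 2) := by
  induction L with
  | nil => simp [rR_nil]
  | cons x L ih =>
    have h1 : (rR (x :: L)).coeff n = (te (vz x)).coeff n + (rR L).coeff n := by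
      rw [rR_cons]
      rfl
    rw [h1, coeff_te, ih]
    by_cases h : vz x = n
    · rw [if_pos h, List.filter_cons_of_pos (by simpa using h), List.length_cons]
      push_cast
      ring
    · rw [if_neg h, List.filter_cons_of_neg (by simpa using h), zero_add]

/-- equality of the integers of pairs -/
def Eqv (y x : ℕ × ℕ) : Prop := y.1 + x.2 = x.1 + y.2

instance : DecidableRel Eqv := fun y x => inferInstanceAs (Decidable (y.1 + x.2 = x.1 + y.2))

theorem eqv_iff (y x : ℕ × ℕ) : Eqv y x ↔ vz y = vz x := by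
  unfold Eqv vz; omega

/-- the zero test -/
def Zt (L : List (ℕ × ℕ)) : Prop := ∀ x ∈ L, (L.filter fun y => Eqv y x).length % 2 = 0

theorem zt_iff (L : List (ℕ × ℕ)) : rR L = 0 ↔ Zt L := by
  have hf : ∀ x : ℕ × ℕ, (L.filter fun y => Eqv y x) = L.filter fun y => vz y = vz x := by
    intro x
    refine List.filter_congr fun y _ => ?_
    simp only [eqv_iff]
  constructor
  · intro h x _
    have h1 := coeff_rR L (vz x)
    rw [h] at h1
    rw [hf]
    have h2 : (((L.filter (fun y => vz y = vz x)).length : ℕ) : ZMod 2) = 0 := h1.symm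
    rw [ZMod.natCast_eq_zero_iff] at h2
    omega
  · intro h
    ext n
    rw [coeff_rR]
    show _ = (0 : ZMod 2)
    by_cases hn : ∃ x ∈ L, vz x = n
    · obtain ⟨x, hx, rfl⟩ := hn
      have h1 := h x hx
      rw [hf] at h1
      rw [ZMod.natCast_eq_zero_iff]
      omega
    · have h1 : (L.filter fun y => vz y = n) = [] := by
        rw [List.filter_eq_nil_iff]
        intro y hy
        simp only [decide_eq_true_eq]
        exact fun h2 => hn ⟨y, hy, h2⟩
      rw [h1]
      simp

/-! ### primitive recursion -/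

theorem p_up : Primrec up := (succ.comp fst).pair snd

theorem p_dn : Primrec dn := fst.pair (succ.comp snd)

theorem p_eqv : PrimrecRel Eqv := by
  unfold Eqv
  exact Primrec.eq.comp₂ (nat_add.comp₂ (fst.comp fst).to₂ (snd.comp snd).to₂)
    (nat_add.comp₂ (fst.comp snd).to₂ (snd.comp fst).to₂)

theorem p_zt : PrimrecPred Zt := by
  have h1 : PrimrecRel fun (x : ℕ × ℕ) (L : List (ℕ × ℕ)) => (L.filter fun y => Eqv y x).length % 2 = 0 := by
    have h2 : Primrec₂ fun (x : ℕ × ℕ) (L : List (ℕ × ℕ)) => (L.filter fun y => Eqv y x) :=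
      (PrimrecRel.listFilter p_eqv).swap
    exact Primrec.eq.comp₂ (nat_mod.comp₂ (list_length.comp₂ h2) (Primrec.const 2).to₂) (Primrec.const 0).to₂
  exact (PrimrecRel.forall_mem_list h1).comp Primrec.id Primrec.id

theorem p_step : Primrec₂ step := by
  have hc1 : Primrec fun x : (ℕ × Bool) × St => x.1.1 := fst.comp fst
  have hc2 : Primrec fun x : (ℕ × Bool) × St => x.1.2 := snd.comp fst
  have hk : Primrec fun x : (ℕ × Bool) × St => x.2.1 := fst.comp snd
  have ha : Primrec fun x : (ℕ × Bool) × St => x.2.2.1 := fst.comp (snd.comp snd)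
  have hb : Primrec fun x : (ℕ × Bool) × St => x.2.2.2.1 := fst.comp (snd.comp (snd.comp snd))
  have hc : Primrec fun x : (ℕ × Bool) × St => x.2.2.2.2 := snd.comp (snd.comp (snd.comp snd))
  refine Primrec.ite (Primrec.eq.comp hc1 (Primrec.const 0)) ?_ ?_
  · refine Primrec.ite (Primrec.eq.comp hc2 (Primrec.const true)) ?_ ?_
    · exact (p_up.comp hk).pair (ha.pair ((list_map hb (p_up.comp snd).to₂).pair hc))
    · exact (p_dn.comp hk).pair (ha.pair ((list_map hb (p_dn.comp snd).to₂).pair hc))
  · refine Primrec.ite (Primrec.eq.comp hc1 (Primrec.const 1)) ?_ ?_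
    · exact hk.pair ((list_cons.comp hk ha).pair (hb.pair (list_append.comp hb hc)))
    · refine Primrec.ite (Primrec.eq.comp hc1 (Primrec.const 2)) ?_ snd
      exact hk.pair (ha.pair ((list_cons.comp (Primrec.const (0, 0)) hb).pair hc))

theorem p_run : Primrec run := by
  unfold run
  exact list_foldr Primrec.id (Primrec.const s0) ((p_step.comp (fst.comp snd) (snd.comp snd)).to₂)

theorem p_k : PrimrecPred fun u : Wd => vz (run u).1 = 0 := by
  have h1 : PrimrecPred fun u : Wd => (run u).1.1 = (run u).1.2 :=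
    Primrec.eq.comp (fst.comp (fst.comp p_run)) (snd.comp (fst.comp p_run))
  refine h1.of_eq fun u => ?_
  unfold vz
  omega

theorem p_a : PrimrecPred fun u : Wd => rR (run u).2.1 = 0 :=
  (p_zt.comp (fst.comp (snd.comp p_run))).of_eq fun _ => (zt_iff _).symm

theorem p_b : PrimrecPred fun u : Wd => rR (run u).2.2.1 = 0 :=
  (p_zt.comp (fst.comp (snd.comp (snd.comp p_run)))).of_eq fun _ => (zt_iff _).symm

theorem p_c : PrimrecPred fun u : Wd => rR (run u).2.2.2 = 0 :=
  (p_zt.comp (snd.comp (snd.comp (snd.comp p_run)))).of_eq fun _ => (zt_iff _).symm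

end COMP

open COMP

theorem ctrP : CtrS :=
  (p_k.and (p_a.and p_b)).of_eq fun u => by
    rw [← val_run]
    rfl

theorem oneP : OneS :=
  (p_k.and (p_a.and (p_b.and p_c))).of_eq fun u => by
    rw [← val_run]
    constructor
    · rintro ⟨h1, h2, h3, h4⟩
      exact Hal.ext h1 h2 h3 h4
    · intro h
      exact ⟨congrArg Hal.k h, congrArg Hal.a h, congrArg Hal.b h, congrArg Hal.c h⟩

end Pool.Agent.Lib.MP_43df1d_lc.GT
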