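import Pool.Agent.Lib.MP_43df1d_lc.GT.Iface

/-!
Board GT for MP_43df1d_lc, row CONT: the map `pt` is continuous and injective, the space is Hausdorff.
-/

set_option autoImplicit false

namespace Pool.Agent.Lib.MP_43df1d_lc.GT

namespace CONT

theorem gen_mem_cen_iff (Y : AddSubgroup R) (i : ℕ) : gen i ∈ cen Y ↔ 3 ≤ i := by
  rcases i with _ | _ | _ | i
  · simp [mem_cen, Ctr, gen]
  · simp [mem_cen, Ctr, gen]
  · simp [mem_cen, Ctr, gen]
  · simp only [gen]
    exact ⟨fun _ => by omega, fun _ => (cen Y).one_mem⟩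

theorem pt_of (Y : AddSubgroup R) (i : ℕ) : pt Y (FreeGroup.of i) = true ↔ 3 ≤ i := by
  rw [← gen_mem_cen_iff Y i]
  simp [pt, pr]

theorem cont_coord (w : FreeGroup ℕ) : @Continuous _ _ topY _ fun Y : AddSubgroup R => pt Y w := by
  by_cases h : Ctr (pr w)
  · have e : (fun Y : AddSubgroup R => pt Y w) = (fun φ : R → Bool => φ (pr w).c) ∘ bY := by
      funext Y
      simp only [pt, bY, Function.comp_apply]
      congr 1
      exact propext ⟨fun h' => (mem_cen.1 h').2, fun h' => mem_cen.2 ⟨h, h'⟩⟩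
    rw [e]
    exact (continuous_apply _).comp continuous_induced_dom
  · have e : (fun Y : AddSubgroup R => pt Y w) = fun _ => false := by
      funext Y
      simp only [pt, decide_eq_false_iff_not]
      exact fun h' => h (mem_cen.1 h').1
    rw [e]
    exact continuous_const

theorem tau_le : tau ≤ (Pi.topologicalSpace : TopologicalSpace (FreeGroup ℕ → Bool)) :=
  fun U hU => TopologicalSpace.GenerateOpen.basic U (Or.inl hU)

/-- every element of `Hal` is the value of an element of the free group -/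
theorem exists_pr (h : WrepS) (f : R) : ∃ w : FreeGroup ℕ, pr w = ⟨0, 0, 0, f⟩ := by
  obtain ⟨D, hD⟩ : ∃ D : ℕ, Sup D f := by
    refine ⟨f.coeff.support.sup Int.natAbs, fun n hn => ?_⟩
    have := Finset.le_sup (f := Int.natAbs) (Finsupp.mem_support_iff.2 hn)
    rw [Int.abs_eq_natAbs]
    exact_mod_cast this
  obtain ⟨u, -, -, hu⟩ := h D ⟨0, 0, 0, f⟩ (by simp) (fun n hn => absurd rfl hn)
    (fun n hn => absurd rfl hn) hD
  refine ⟨wval FreeGroup.of u, ?_⟩
  rw [← wval_map pr FreeGroup.of u, ← hu]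
  congr 1
  funext i
  simp [pr]

end CONT

open CONT

theorem contS : ContS := by
  unfold ContS
  rw [continuous_generateFrom_iff]
  rintro s (hs | ⟨m, rfl⟩)
  · exact (@continuous_pi _ _ _ topY _ _ cont_coord).isOpen_preimage s hs
  · by_cases hm : 3 ≤ m
    · convert isOpen_univ using 1
      ext Y
      simp only [Set.mem_preimage, Set.mem_ofPred_eq, Set.mem_univ, iff_true]
      exact fun i hi => (pt_of Y i).2 (hm.trans hi)
    · convert isOpen_empty using 1
      ext Y
      simp only [Set.mem_preimage, Set.mem_ofPred_eq, Set.mem_empty_iff_false, iff_false]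
      intro h
      exact hm ((pt_of Y m).1 (h m le_rfl))

theorem t2S : T2S := by
  unfold T2S
  exact @T2Space.of_injective_continuous _ _ tau Pi.topologicalSpace _ id Function.injective_id
    (continuous_id_iff_le.2 tau_le)

theorem injS (h : WrepS) : InjS := by
  intro Y Y' hY
  ext f
  obtain ⟨w, hw⟩ := exists_pr h f
  have e := congrFun hY w
  simp only [pt, hw, decide_eq_decide, mem_cen] at e
  have hc : Ctr ⟨0, 0, 0, f⟩ := ⟨rfl, rfl, rfl⟩
  exact ⟨fun h1 => (e.1 ⟨hc, h1⟩).2, fun h1 => (e.2 ⟨hc, h1⟩).2⟩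

end Pool.Agent.Lib.MP_43df1d_lc.GT
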