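import Pool.Agent.Lib.MP_43df1d_lc.GT.Iface

/-!
Board GT for MP_43df1d_lc, row DEC: the solvability of systems in the central quotients is a primitive
recursive predicate.
-/

set_option autoImplicit false

namespace Pool.Agent.Lib.MP_43df1d_lc.GT

namespace DEC

/-! ### The formal operations -/

/-- formal inverse -/
def inv (u : Wd) : Wd := u.reverse.map fun c => (c.1, !c.2)

/-- substitution of a letter -/
def subL (xs : List Wd) (c : ℕ × Bool) : Wd :=
  bif c.2 then xs.getD c.1 [] else inv (xs.getD c.1 [])

/-- substitution -/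
def sub (xs : List Wd) (w : Wd) : Wd := w.flatMap (subL xs)

theorem wval_inv {G : Type} [Group G] (x : ℕ → G) (u : Wd) : wval x (inv u) = (wval x u)⁻¹ := by
  induction u with
  | nil => simp [wval, inv]
  | cons c u ih =>
    rcases c with ⟨i, b⟩
    have h : inv ((i, b) :: u) = inv u ++ [(i, !b)] := by simp [inv]
    rw [h, wval_append, ih]
    cases b <;> simp [wval]

theorem wval_subL {G : Type} [Group G] (x : ℕ → G) (xs : List Wd) (c : ℕ × Bool) :
    wval x (subL xs c) =
      if c.2 then wval x (xs.getD c.1 []) else (wval x (xs.getD c.1 []))⁻¹ := by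
  rcases c with ⟨i, b⟩
  cases b
  · simp only [subL, cond_false, wval_inv]; simp
  · simp only [subL, cond_true]; simp

theorem wval_sub {G : Type} [Group G] (x : ℕ → G) (xs : List Wd) (w : Wd) :
    wval x (sub xs w) = wval (fun j => wval x (xs.getD j [])) w := by
  induction w with
  | nil => simp [wval, sub]
  | cons c w ih =>
    have h : sub xs (c :: w) = subL xs c ++ sub xs w := by simp [sub]
    rw [h, wval_append, ih, wval_subL]
    rcases c with ⟨i, b⟩
    simp [wval]

theorem prim_inv : Primrec inv :=
  Primrec.list_map Primrec.list_reverse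
    (Primrec.pair (Primrec.fst.comp Primrec.snd) (Primrec.not.comp (Primrec.snd.comp Primrec.snd))).to₂

theorem prim_subL : Primrec₂ subL := by
  have hg : Primrec fun p : List Wd × (ℕ × Bool) => p.1.getD p.2.1 [] :=
    (Primrec.list_getD ([] : Wd)).comp Primrec.fst (Primrec.fst.comp Primrec.snd)
  exact Primrec.cond (Primrec.snd.comp Primrec.snd) hg (prim_inv.comp hg)

theorem prim_sub : Primrec₂ sub :=
  Primrec.list_flatMap Primrec.snd
    (prim_subL.comp (Primrec.fst.comp Primrec.fst) Primrec.snd).to₂

/-! ### The finite lists -/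

/-- the six letters -/
def lets : List (ℕ × Bool) := [(0, true), (0, false), (1, true), (1, false), (2, true), (2, false)]

theorem mem_lets (c : ℕ × Bool) : c ∈ lets ↔ c.1 < 3 := by
  rcases c with ⟨i, b⟩
  constructor
  · intro h
    simp only [lets, List.mem_cons, Prod.mk.injEq, List.not_mem_nil, or_false] at h
    simp only
    omega
  · intro h
    simp only at h
    interval_cases i <;> cases b <;> simp [lets]

/-- all words of length at most `n` in the six letters -/
def allW : ℕ → List Wd
  | 0 => [[]]
  | n + 1 => [] :: (allW n).flatMap fun w => lets.map fun c => c :: w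

theorem mem_allW (n : ℕ) : ∀ w : Wd, w ∈ allW n ↔ w.length ≤ n ∧ ∀ c ∈ w, c.1 < 3 := by
  induction n with
  | zero =>
    intro w
    simp only [allW, List.mem_singleton, Nat.le_zero, List.length_eq_zero_iff]
    constructor
    · rintro rfl; simp
    · exact fun h => h.1
  | succ n ih =>
    intro w
    simp only [allW, List.mem_cons, List.mem_flatMap, List.mem_map]
    constructor
    · rintro (rfl | ⟨v, hv, c, hc, rfl⟩)
      · simp
      · obtain ⟨h1, h2⟩ := (ih v).1 hv
        refine ⟨by simpa using h1, ?_⟩
        intro d hd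
        rcases List.mem_cons.1 hd with rfl | hd
        · exact (mem_lets _).1 hc
        · exact h2 d hd
    · rintro ⟨h1, h2⟩
      rcases w with _ | ⟨c, v⟩
      · exact Or.inl rfl
      · refine Or.inr ⟨v, (ih v).2 ⟨by simpa using h1, fun d hd => h2 d (List.mem_cons_of_mem _ hd)⟩,
          c, (mem_lets c).2 (h2 c List.mem_cons_self), rfl⟩

/-- all lists of length `s` with entries in `W` -/
def allT (W : List Wd) : ℕ → List (List Wd)
  | 0 => [[]]
  | s + 1 => (allT W s).flatMap fun t => W.map fun w => w :: t

theorem mem_allT (W : List Wd) (s : ℕ) :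
    ∀ t : List Wd, t ∈ allT W s ↔ t.length = s ∧ ∀ w ∈ t, w ∈ W := by
  induction s with
  | zero =>
    intro t
    simp only [allT, List.mem_singleton, List.length_eq_zero_iff]
    constructor
    · rintro rfl; simp
    · exact fun h => h.1
  | succ s ih =>
    intro t
    simp only [allT, List.mem_flatMap, List.mem_map]
    constructor
    · rintro ⟨t, ht, w, hw, rfl⟩
      obtain ⟨h1, h2⟩ := (ih t).1 ht
      refine ⟨by simpa using h1, ?_⟩
      intro d hd
      rcases List.mem_cons.1 hd with rfl | hd
      · exact hw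
      · exact h2 d hd
    · rintro ⟨h1, h2⟩
      rcases t with _ | ⟨w, t⟩
      · simp at h1
      · exact ⟨t, (ih t).2 ⟨by simpa using h1, fun d hd => h2 d (List.mem_cons_of_mem _ hd)⟩,
          w, h2 w List.mem_cons_self, rfl⟩

theorem prim_allW : Primrec allW := by
  have hstep : Primrec₂ fun (_ : ℕ) (q : ℕ × List Wd) =>
      ([] : Wd) :: q.2.flatMap fun w => lets.map fun c => c :: w := by
    refine Primrec.list_cons.comp (Primrec.const []) ?_
    refine Primrec.list_flatMap (Primrec.snd.comp Primrec.snd) ?_
    refine Primrec.list_map (Primrec.const lets) ?_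
    exact (Primrec.list_cons.comp Primrec.snd (Primrec.snd.comp Primrec.fst)).to₂
  refine (Primrec.nat_rec' Primrec.id (Primrec.const [[]]) hstep).of_eq ?_
  intro n
  induction n with
  | zero => rfl
  | succ n ih =>
    simp only [id] at ih ⊢
    rw [allW, ← ih]

theorem prim_allT : Primrec₂ allT := by
  have hstep : Primrec₂ fun (p : List Wd × ℕ) (q : ℕ × List (List Wd)) =>
      q.2.flatMap fun t => p.1.map fun w => w :: t := by
    refine Primrec.list_flatMap (Primrec.snd.comp Primrec.snd) ?_
    refine Primrec.list_map (Primrec.fst.comp (Primrec.fst.comp Primrec.fst)) ?_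
    exact (Primrec.list_cons.comp Primrec.snd (Primrec.snd.comp Primrec.fst)).to₂
  refine (Primrec.nat_rec' Primrec.snd (Primrec.const [[]]) hstep).of_eq ?_
  rintro ⟨W, n⟩
  induction n with
  | zero => rfl
  | succ n ih =>
    simp only at ih ⊢
    rw [allT, ← ih]

/-! ### Sizes and sublists -/

theorem szW_eq (w : Wd) : szW w = w.foldr (fun c n => c.1 + 1 + n) 0 := by
  induction w with
  | nil => rfl
  | cons c w ih => simp [szW, ih]

theorem szL_eq (l : List Wd) : szL l = l.foldr (fun w n => szW w + 1 + n) 0 := by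
  induction l with
  | nil => rfl
  | cons c w ih => simp [szL, ih]

theorem prim_szW : Primrec szW := by
  have h : Primrec₂ fun (_ : Wd) (q : (ℕ × Bool) × ℕ) => q.1.1 + 1 + q.2 :=
    Primrec.nat_add.comp
      (Primrec.succ.comp (Primrec.fst.comp (Primrec.fst.comp Primrec.snd)))
      (Primrec.snd.comp Primrec.snd)
  exact (Primrec.list_foldr Primrec.id (Primrec.const 0) h).of_eq fun w => (szW_eq w).symm

theorem prim_szL : Primrec szL := by
  have h : Primrec₂ fun (_ : List Wd) (q : Wd × ℕ) => szW q.1 + 1 + q.2 :=
    Primrec.nat_add.comp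
      (Primrec.succ.comp (prim_szW.comp (Primrec.fst.comp Primrec.snd)))
      (Primrec.snd.comp Primrec.snd)
  exact (Primrec.list_foldr Primrec.id (Primrec.const 0) h).of_eq fun w => (szL_eq w).symm

theorem prim_sublists : Primrec (List.sublists : List Wd → List (List Wd)) := by
  have h : Primrec₂ fun (_ : List Wd) (q : Wd × List (List Wd)) =>
      q.2.flatMap fun x => [x, q.1 :: x] := by
    refine Primrec.list_flatMap (Primrec.snd.comp Primrec.snd) ?_
    refine Primrec.list_cons.comp Primrec.snd ?_
    refine Primrec.list_cons.comp ?_ (Primrec.const [])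
    exact Primrec.list_cons.comp (Primrec.fst.comp (Primrec.snd.comp Primrec.fst)) Primrec.snd
  exact (Primrec.list_foldr Primrec.id (Primrec.const [[]]) h).of_eq fun w => rfl

theorem prim_vws : Primrec fun p : List Wd × List Wd => vws p.1 p.2 := by
  refine Primrec.list_flatMap Primrec.snd ?_
  refine Primrec.list_map (prim_sublists.comp (Primrec.fst.comp Primrec.fst)) ?_
  exact (Primrec.list_append.comp (Primrec.snd.comp Primrec.fst)
    (Primrec.list_flatten.comp Primrec.snd)).to₂

theorem lt_szW {w : Wd} {c : ℕ × Bool} (h : c ∈ w) : c.1 < szW w := by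
  induction w with
  | nil => simp at h
  | cons d w ih =>
    rcases List.mem_cons.1 h with rfl | h
    · simp only [szW]; omega
    · have := ih h
      simp only [szW]; omega

theorem lt_szL {l : List Wd} {w : Wd} (hw : w ∈ l) {c : ℕ × Bool} (h : c ∈ w) : c.1 < szL l := by
  induction l with
  | nil => simp at hw
  | cons d l ih =>
    rcases List.mem_cons.1 hw with rfl | hw
    · have := lt_szW h
      simp only [szL]; omega
    · have := ih hw
      simp only [szL]; omega

theorem lt_vws {Rel C : List Wd} {w : Wd} (hw : w ∈ vws Rel C) {c : ℕ × Bool} (h : c ∈ w) :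
    c.1 < szL Rel + szL C := by
  simp only [vws, List.mem_flatMap, List.mem_map, List.mem_sublists] at hw
  obtain ⟨u, hu, T, hT, rfl⟩ := hw
  rcases List.mem_append.1 h with h | h
  · have := lt_szL hu h
    omega
  · obtain ⟨r, hr, hc⟩ := List.mem_flatten.1 h
    have := lt_szL (hT.subset hr) hc
    omega

theorem wval_congr {G : Type} [Group G] {x y : ℕ → G} {w : Wd} (h : ∀ c ∈ w, x c.1 = y c.1) :
    wval x w = wval y w := by
  induction w with
  | nil => rfl
  | cons c w ih =>
    rcases c with ⟨i, b⟩
    have h1 := h (i, b) List.mem_cons_self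
    simp only at h1
    simp only [wval]
    rw [ih fun d hd => h d (List.mem_cons_of_mem _ hd), h1]

/-! ### The primitive recursive predicate -/

/-- the bound -/
def bd (s : ℕ) : ℕ := WB (CB s + SB s)

/-- the finite list of candidates -/
def cand (s : ℕ) : List (List Wd) := allT (allW (bd s)) s

/-- the test -/
def Good (xs : List Wd) (p : List Wd × List Wd) : Prop :=
  (∀ r ∈ p.1, Ctr (wval gen (sub xs r))) ∧ ∀ v ∈ vws p.1 p.2, ¬ wval gen (sub xs v) = 1

theorem prim_good (h4 : OneS) (h5 : CtrS) : PrimrecRel Good := by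
  have hC : PrimrecRel fun (r : Wd) (xs : List Wd) => Ctr (wval gen (sub xs r)) :=
    PrimrecPred.comp (p := fun u : Wd => Ctr (wval gen u)) h5
      (f := fun q : Wd × List Wd => sub q.2 q.1) (prim_sub.comp Primrec.snd Primrec.fst)
  have hO : PrimrecRel fun (r : Wd) (xs : List Wd) => ¬ wval gen (sub xs r) = 1 :=
    (PrimrecPred.comp (p := fun u : Wd => wval gen u = 1) h4
      (f := fun q : Wd × List Wd => sub q.2 q.1) (prim_sub.comp Primrec.snd Primrec.fst)).not
  have h1 : PrimrecPred fun q : List Wd × (List Wd × List Wd) =>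
      ∀ r ∈ q.2.1, Ctr (wval gen (sub q.1 r)) :=
    hC.forall_mem_list.comp (Primrec.fst.comp Primrec.snd) Primrec.fst
  have h2 : PrimrecPred fun q : List Wd × (List Wd × List Wd) =>
      ∀ v ∈ vws q.2.1 q.2.2, ¬ wval gen (sub q.1 v) = 1 :=
    hO.forall_mem_list.comp (prim_vws.comp Primrec.snd) Primrec.fst
  exact h1.and h2

theorem sat_iff (h1 : SatVS) (h2 : SmallS) (h3 : WrepS) (p : List Wd × List Wd) :
    (∃ xs ∈ cand (szL p.1 + szL p.2), Good xs p) ↔ SatY p := by
  rw [h1 p]
  constructor
  · rintro ⟨xs, -, hg⟩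
    refine ⟨fun j => wval gen (xs.getD j []), ?_, ?_⟩
    · intro r hr
      rw [← wval_sub]
      exact hg.1 r hr
    · intro v hv
      rw [← wval_sub]
      exact hg.2 v hv
  · intro hx
    set s : ℕ := szL p.1 + szL p.2 with hs
    obtain ⟨x, hsol, hb⟩ := h2 s p.1 p.2 le_rfl hx
    have hw : ∀ i < s, ∃ u : Wd, u.length ≤ bd s ∧ (∀ c ∈ u, c.1 < 3) ∧ wval gen u = x i := by
      intro i hi
      obtain ⟨hk, ha, hb', hc⟩ := hb i hi
      have hmono : ∀ f : R, Sup (SB s) f → Sup (CB s + SB s) f := by
        intro f hf n hn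
        have := hf n hn
        push_cast
        have h0 : (0 : ℤ) ≤ (CB s : ℤ) := Int.natCast_nonneg _
        linarith
      refine h3 (CB s + SB s) (x i) ?_ (hmono _ ha) (hmono _ hb') (hmono _ hc)
      push_cast
      have h0 : (0 : ℤ) ≤ (SB s : ℤ) := Int.natCast_nonneg _
      linarith
    choose! u hu1 hu2 hu3 using hw
    set xs : List Wd := (List.range s).map u with hxs
    have hget : ∀ i < s, wval gen (xs.getD i []) = x i := by
      intro i hi
      have : xs.getD i [] = u i := by
        rw [List.getD_eq_getElem?_getD, hxs, List.getElem?_map, List.getElem?_range hi]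
        rfl
      rw [this]
      exact hu3 i hi
    refine ⟨xs, ?_, ?_, ?_⟩
    · rw [cand, mem_allT]
      refine ⟨by simp [hxs], ?_⟩
      intro w hw
      rw [hxs, List.mem_map] at hw
      obtain ⟨i, hi, rfl⟩ := hw
      rw [List.mem_range] at hi
      rw [mem_allW]
      exact ⟨hu1 i hi, hu2 i hi⟩
    · intro r hr
      rw [wval_sub, wval_congr (y := x)]
      · exact hsol.1 r hr
      · intro c hc
        refine hget _ ?_
        have := lt_szL hr hc
        omega
    · intro v hv
      rw [wval_sub, wval_congr (y := x)]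
      · exact hsol.2 v hv
      · intro c hc
        exact hget _ (lt_vws hv hc)

end DEC

open DEC in
theorem dec (h1 : SatVS) (h2 : SmallS) (h3 : WrepS) (h4 : OneS) (h5 : CtrS) (h6 : BndS) : DecS := by
  have hbd : Primrec bd := h6
  have hsz : Primrec fun p : List Wd × List Wd => szL p.1 + szL p.2 :=
    Primrec.nat_add.comp (prim_szL.comp Primrec.fst) (prim_szL.comp Primrec.snd)
  have hcand : Primrec fun p : List Wd × List Wd => cand (szL p.1 + szL p.2) :=
    prim_allT.comp (prim_allW.comp (hbd.comp hsz)) hsz
  have hP : PrimrecPred fun p : List Wd × List Wd => ∃ xs ∈ cand (szL p.1 + szL p.2), Good xs p :=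
    (prim_good h4 h5).exists_mem_list.comp hcand Primrec.id
  exact hP.of_eq fun p => sat_iff h1 h2 h3 p

end Pool.Agent.Lib.MP_43df1d_lc.GT
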