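import Pool.Agent.Lib.MP_43df1d_lc.GT.Iface

/-!
Board GT for MP_43df1d_lc, row DENSE: if some central quotient solves a system, then those which solve it are dense.
-/

set_option autoImplicit false

namespace Pool.Agent.Lib.MP_43df1d_lc.GT

namespace DENSE

theorem coeff_te_mul (n m : ℤ) (f : R) : (te n * f).coeff m = f.coeff (m - n) := by
  have h := AddMonoidAlgebra.coeff_single_mul_add (R := ZMod 2) f 1 n (m - n)
  rw [one_mul, add_sub_cancel] at h
  exact h

theorem te_mul_cancel {n : ℤ} {f g : R} (h : te n * f = te n * g) : f = g := by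
  have h1 := congrArg (te (-n) * ·) h
  simp only [← mul_assoc, te_neg_mul, one_mul] at h1
  exact h1

/-- Elements supported in a window. -/
def win (D : ℕ) : AddSubgroup R where
  carrier := {f | Sup D f}
  zero_mem' := fun n h => absurd (by simp) h
  add_mem' := by
    intro f g hf hg n hn
    by_cases h1 : f.coeff n = 0
    · refine hg n fun h2 => hn ?_
      rw [AddMonoidAlgebra.coeff_add, Finsupp.add_apply, h1, h2, add_zero]
    · exact hf n h1
  neg_mem' := by
    intro f hf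
    rw [neg_eq]
    exact hf

theorem mem_win {D : ℕ} {f : R} : f ∈ win D ↔ Sup D f := Iff.rfl

/-- Every finite set of elements lies in a window. -/
theorem exists_win (Z : List R) : ∃ D : ℕ, ∀ f ∈ Z, Sup D f := by
  induction Z with
  | nil => exact ⟨0, fun f h => absurd h List.not_mem_nil⟩
  | cons f Z ih =>
    obtain ⟨D, hD⟩ := ih
    obtain ⟨D', hD'⟩ : ∃ D' : ℕ, Sup D' f := by
      refine ⟨f.coeff.support.sup fun n => n.natAbs, fun n hn => ?_⟩
      have h1 : n.natAbs ≤ f.coeff.support.sup fun n : ℤ => n.natAbs :=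
        Finset.le_sup (f := fun n : ℤ => n.natAbs) (Finsupp.mem_support_iff.2 hn)
      have h2 : |n| = (n.natAbs : ℤ) := Int.abs_eq_natAbs n
      rw [h2]
      exact_mod_cast h1
    refine ⟨max D D', fun g hg n hn => ?_⟩
    rcases List.mem_cons.1 hg with rfl | hg
    · exact (hD' n hn).trans (by exact_mod_cast le_max_right D D')
    · exact (hD g hg n hn).trans (by exact_mod_cast le_max_left D D')

/-- Disjoint windows. -/
theorem disj {D : ℕ} {f g : R} (hf : Sup D f) (hg : Sup D g) (h : te (2 * D + 1) * g = f) : g = 0 := by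
  ext m
  rw [AddMonoidAlgebra.coeff_zero, Finsupp.zero_apply]
  by_contra hm
  have h1 := hg m hm
  have h2 : f.coeff (m + (2 * D + 1)) ≠ 0 := by
    rw [← h, coeff_te_mul, add_sub_cancel_right]
    exact hm
  have h3 := hf _ h2
  rw [abs_le] at h1 h3
  omega

/-- The automorphisms `(k, a, b, c) ↦ (k, T ^ n a, b, T ^ n c)`. -/
noncomputable def theta (n : ℤ) : Hal →* Hal where
  toFun x := ⟨x.k, te n * x.a, x.b, te n * x.c⟩
  map_one' := by ext1 <;> simp
  map_mul' x y := by
    ext1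
    · simp
    · simp only [Hal.mul_a]
      ring
    · simp
    · simp only [Hal.mul_c]
      ring

theorem ctr_theta {n : ℤ} {x : Hal} : Ctr (theta n x) ↔ Ctr x := by
  constructor
  · rintro ⟨h1, h2, h3⟩
    refine ⟨h1, ?_, h3⟩
    have h4 : te n * x.a = te n * 0 := by rw [mul_zero]; exact h2
    exact te_mul_cancel h4
  · rintro ⟨h1, h2, h3⟩
    refine ⟨h1, ?_, h3⟩
    show te n * x.a = 0
    rw [h2, mul_zero]

theorem theta_c (n : ℤ) (x : Hal) : (theta n x).c = te n * x.c := rfl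

end DENSE

open DENSE in
theorem denseS : DenseS := by
  rintro p ⟨Y₁, x, hr, hw⟩ Y Z
  classical
  obtain ⟨D, hD⟩ := exists_win (Z.toList ++ ((p.1 ++ p.2).map fun r => (wval x r).c))
  have hZ : ∀ z ∈ Z, Sup D z := fun z hz => hD z (List.mem_append_left _ (Finset.mem_toList.2 hz))
  have hp : ∀ r, r ∈ p.1 ∨ r ∈ p.2 → Sup D (wval x r).c := fun r h =>
    hD _ (List.mem_append_right _ (List.mem_map.2 ⟨r, List.mem_append.2 h, rfl⟩))
  set n : ℤ := 2 * D + 1 with hn
  set Y₂ : AddSubgroup R := AddSubgroup.closure {c | ∃ r ∈ p.1, c = (wval x r).c} with hY₂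
  have h2 : Y₂ ≤ Y₁ := by
    rw [hY₂, AddSubgroup.closure_le]
    rintro c ⟨r, h, rfl⟩
    exact (mem_cen.1 (hr r h)).2
  have h3 : Y₂ ≤ win D := by
    rw [hY₂, AddSubgroup.closure_le]
    rintro c ⟨r, h, rfl⟩
    exact hp r (Or.inl h)
  set Y' : AddSubgroup R := (Y ⊓ win D) ⊔ Y₂.map (AddMonoidHom.mulLeft (te n)) with hY'
  have hmem : ∀ f, f ∈ Y' ↔ ∃ y ∈ Y ⊓ win D, ∃ u ∈ Y₂, y + te n * u = f := by
    intro f
    rw [hY', AddSubgroup.mem_sup]
    constructor
    · rintro ⟨y, hy, v, ⟨u, hu, rfl⟩, rfl⟩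
      exact ⟨y, hy, u, hu, rfl⟩
    · rintro ⟨y, hy, u, hu, rfl⟩
      exact ⟨y, hy, _, ⟨u, hu, rfl⟩, rfl⟩
  refine ⟨Y', ⟨fun i => theta n (x i), fun r h => ?_, fun w h hc => ?_⟩, fun z hz => ⟨fun h => ?_, fun h => ?_⟩⟩
  · rw [wval_map, mem_cen, ctr_theta, theta_c]
    have h4 := mem_cen.1 (hr r h)
    refine ⟨h4.1, (hmem _).2 ⟨0, AddSubgroup.zero_mem _, _, AddSubgroup.subset_closure ⟨r, h, rfl⟩, zero_add _⟩⟩
  · rw [wval_map, mem_cen, ctr_theta, theta_c] at hc
    obtain ⟨h4, h5⟩ := hc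
    obtain ⟨y, hy, u, hu, h6⟩ := (hmem _).1 h5
    refine hw w h (mem_cen.2 ⟨h4, ?_⟩)
    have h7 : te n * ((wval x w).c + u) = y := by
      rw [mul_add, ← h6, add_assoc, add_self, add_zero]
    have h8 : (wval x w).c + u = 0 :=
      disj hy.2 ((win D).add_mem (hp w (Or.inr h)) (h3 hu)) h7
    have h9 : (wval x w).c = u := by
      have h10 := congrArg (· + u) h8
      simp only [add_assoc, add_self, add_zero, zero_add] at h10
      exact h10
    rw [h9]
    exact h2 hu
  · obtain ⟨y, hy, u, hu, h6⟩ := (hmem _).1 h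
    have h7 : te n * u = z + y := by
      rw [← h6, add_comm y, add_assoc, add_self, add_zero]
    have h8 : u = 0 := disj ((win D).add_mem (hZ z hz) hy.2) (h3 hu) h7
    rw [h8, mul_zero, add_zero] at h6
    rw [← h6]
    exact hy.1
  · exact (hmem _).2 ⟨z, ⟨h, hZ z hz⟩, 0, AddSubgroup.zero_mem _, by rw [mul_zero, add_zero]⟩

end Pool.Agent.Lib.MP_43df1d_lc.GT
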