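import Pool.Agent.Lib.MP_43df1d_lc.GT.Iface

/-!
Board GT for MP_43df1d_lc, row GENB: open dense sets of subgroups give generic properties, and two
generic properties have a common marked group.
-/

set_option autoImplicit false

namespace Pool.Agent.Lib.MP_43df1d_lc.GT

namespace GENB

open Topology

/-- the map `pt` is a closed embedding -/
theorem closedEmb (h1 : CompS) (h3 : ContS) (h4 : T2S) (h5 : InjS) :
    @IsClosedEmbedding _ _ topY tau pt := by
  have : CompactSpace (AddSubgroup R) := h1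
  let _ : TopologicalSpace (FreeGroup ℕ → Bool) := tau
  have : T2Space (FreeGroup ℕ → Bool) := h4
  exact Continuous.isClosedEmbedding h3 h5

/-- the preimage of an open set that is dense in `SH` is dense -/
theorem dense_pre (h1 : CompS) (h3 : ContS) (h4 : T2S) (h5 : InjS)
    {U : Set (FreeGroup ℕ → Bool)} (hU : SH ⊆ @closure _ tau (SH ∩ U)) : Dense (pt ⁻¹' U) := by
  have he := closedEmb h1 h3 h4 h5
  let _ : TopologicalSpace (FreeGroup ℕ → Bool) := tau
  intro Y
  rw [he.isInducing.closure_eq_preimage_closure_image, Set.mem_preimage,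
    Set.image_preimage_eq_inter_range, Set.inter_comm]
  exact hU ⟨Y, rfl⟩

theorem mem_comap (Y : AddSubgroup R) (w : FreeGroup ℕ) :
    w ∈ (cen Y).comap pr ↔ pt Y w = true := by
  have h : pt Y w = true ↔ pr w ∈ cen Y := by
    classical
    simp only [pt, decide_eq_true_eq]
  rw [h]
  exact Subgroup.mem_comap

end GENB

open GENB in
theorem genOpen (h1 : CompS) (h2 : TopS) (h3 : ContS) (h4 : T2S) (h5 : InjS) : GenOpenS := by
  intro P O hO hO' hP
  have he := closedEmb h1 h3 h4 h5
  have ho : IsOpen O := (h2 O).1.2 hO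
  have hd : Dense O := (h2 O).2.2 hO'
  let _ : TopologicalSpace (FreeGroup ℕ → Bool) := tau
  obtain ⟨U, hU, rfl⟩ := he.isInducing.isOpen_iff.1 ho
  refine ⟨fun _ => U, fun _ => ⟨hU, ?_⟩, ?_⟩
  · rintro f ⟨Y, rfl⟩
    have h6 : Y ∈ closure (pt ⁻¹' U) := hd Y
    rw [he.isInducing.closure_eq_preimage_closure_image, Set.mem_preimage,
      Set.image_preimage_eq_inter_range, Set.inter_comm] at h6
    exact h6
  · rintro f ⟨Y, rfl⟩ hf N hN hw
    exact hP Y (hf 0) N hw

open GENB in
theorem baire (h1 : CompS) (_h2 : TopS) (h3 : ContS) (h4 : T2S) (h5 : InjS) : BaireS := by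
  rintro P Q ⟨U, hU, hP⟩ ⟨V, hV, hQ⟩
  have he := closedEmb h1 h3 h4 h5
  have : CompactSpace (AddSubgroup R) := h1
  have hT : T2Space (AddSubgroup R) := by
    let _ : TopologicalSpace (FreeGroup ℕ → Bool) := tau
    have : T2Space (FreeGroup ℕ → Bool) := h4
    exact T2Space.of_injective_continuous h5 h3
  have ho : ∀ W : Set (FreeGroup ℕ → Bool), @IsOpen _ tau W → IsOpen (pt ⁻¹' W) := by
    intro W hW
    let _ : TopologicalSpace (FreeGroup ℕ → Bool) := tau
    exact hW.preimage h3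
  have hd : Dense (⋂ s : ℕ ⊕ ℕ, Sum.elim (fun i => pt ⁻¹' U i) (fun i => pt ⁻¹' V i) s) := by
    refine dense_iInter_of_isOpen ?_ ?_
    · rintro (i | i)
      · exact ho _ (hU i).1
      · exact ho _ (hV i).1
    · rintro (i | i)
      · exact dense_pre h1 h3 h4 h5 (hU i).2
      · exact dense_pre h1 h3 h4 h5 (hV i).2
  obtain ⟨Y, hY⟩ := hd.nonempty
  rw [Set.mem_iInter] at hY
  have hn : ((cen Y).comap pr).Normal := (cen_normal Y).comap pr
  refine ⟨(cen Y).comap pr, hn, ?_, ?_⟩
  · exact hP (pt Y) ⟨Y, rfl⟩ (fun i => hY (Sum.inl i)) _ (mem_comap Y)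
  · exact hQ (pt Y) ⟨Y, rfl⟩ (fun i => hY (Sum.inr i)) _ (mem_comap Y)

end Pool.Agent.Lib.MP_43df1d_lc.GT
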