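import Pool.Agent.Lib.MP_43df1d_lc.GT.Iface

/-!
Row LOC: local solutions with bounded exponents and supports.
-/

set_option autoImplicit false

namespace Pool.Agent.Lib.MP_43df1d_lc.GT

namespace LOC

variable {N : ℕ}

theorem Bx_zero {a : ℕ} : (0 : P N) ∈ Bx N a := by
  intro ℓ h
  exact absurd (by simp) h

theorem Bx_one {a : ℕ} : (1 : P N) ∈ Bx N a := by
  intro ℓ h i
  have h0 : ℓ = 0 := by
    by_contra h1
    refine h ?_
    rw [AddMonoidAlgebra.one_def, AddMonoidAlgebra.coeff_single, Finsupp.single_apply, if_neg (Ne.symm h1)]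
  subst h0
  simp

theorem Bx_mono {a b : ℕ} (h : a ≤ b) {Φ : P N} (hΦ : Φ ∈ Bx N a) : Φ ∈ Bx N b :=
  fun ℓ hℓ i => (hΦ ℓ hℓ i).trans (by exact_mod_cast h)

theorem Bx_add {a : ℕ} {Φ Ψ : P N} (hΦ : Φ ∈ Bx N a) (hΨ : Ψ ∈ Bx N a) : Φ + Ψ ∈ Bx N a := by
  intro ℓ hℓ i
  by_cases h1 : Φ.coeff ℓ = 0
  · by_cases h2 : Ψ.coeff ℓ = 0
    · exact absurd (by rw [AddMonoidAlgebra.coeff_add, Finsupp.add_apply, h1, h2, add_zero]) hℓ
    · exact hΨ ℓ h2 i
  · exact hΦ ℓ h1 i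

theorem Bx_neg {a : ℕ} {Φ : P N} (hΦ : Φ ∈ Bx N a) : -Φ ∈ Bx N a := by
  intro ℓ hℓ i
  refine hΦ ℓ (fun h => hℓ ?_) i
  have : (-Φ).coeff ℓ = -(Φ.coeff ℓ) := rfl
  rw [this, h, neg_zero]

theorem Bx_mul {a b : ℕ} {Φ Ψ : P N} (hΦ : Φ ∈ Bx N a) (hΨ : Ψ ∈ Bx N b) : Φ * Ψ ∈ Bx N (a + b) := by
  classical
  intro ℓ hℓ i
  have h := AddMonoidAlgebra.support_coeff_mul_subset Φ Ψ (Finsupp.mem_support_iff.2 hℓ)
  obtain ⟨u, hu, v, hv, rfl⟩ := Finset.mem_add.1 h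
  have h1 := hΦ u (Finsupp.mem_support_iff.1 hu) i
  have h2 := hΨ v (Finsupp.mem_support_iff.1 hv) i
  push_cast
  exact (abs_add_le _ _).trans (add_le_add h1 h2)

theorem Bx_sum {ι : Type} (s : Finset ι) {a : ℕ} (f : ι → P N) (h : ∀ i ∈ s, f i ∈ Bx N a) :
    ∑ i ∈ s, f i ∈ Bx N a := by
  classical
  induction s using Finset.induction_on with
  | empty => simpa using Bx_zero
  | insert i s hi ih =>
    rw [Finset.sum_insert hi]
    exact Bx_add (h i (Finset.mem_insert_self _ _)) (ih fun j hj => h j (Finset.mem_insert_of_mem hj))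

theorem ht (k : Fin N → ℤ) : Ht (fun L => phi k '' Bx N L) where
  zero := ⟨0, Bx_zero, map_zero _⟩
  one := ⟨1, Bx_one, map_one _⟩
  mono := fun h => Set.image_mono fun _ hΦ => Bx_mono h hΦ
  add := by
    rintro a _ _ ⟨Φ, hΦ, rfl⟩ ⟨Ψ, hΨ, rfl⟩
    exact ⟨Φ + Ψ, Bx_mono (Nat.le_succ _) (Bx_add hΦ hΨ), map_add _ _ _⟩
  neg := by
    rintro a _ ⟨Φ, hΦ, rfl⟩
    exact ⟨-Φ, Bx_neg hΦ, map_neg _ _⟩
  mul := by
    rintro a b _ _ ⟨Φ, hΦ, rfl⟩ ⟨Ψ, hΨ, rfl⟩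
    exact ⟨Φ * Ψ, Bx_mul hΦ hΨ, map_mul _ _ _⟩

theorem EE_mono {n m m' L : ℕ} (h : m ≤ m') : EE n m L ≤ EE n m' L := by
  unfold EE
  gcongr
  norm_num

theorem sup_phi {C E : ℕ} {k' : Fin N → ℤ} (hk : ∀ i, |k' i| ≤ (C : ℤ)) {Ψ : P N} (hΨ : Ψ ∈ Bx N E) :
    Sup (N * C * E) (phi k' Ψ) := by
  classical
  intro n hn
  have h1 : n ∈ (Finsupp.mapDomain (dot k') Ψ.coeff).support := Finsupp.mem_support_iff.2 hn
  have h2 := Finsupp.mapDomain_support h1
  obtain ⟨ℓ, hℓ, rfl⟩ := Finset.mem_image.1 h2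
  have h3 := hΨ ℓ (Finsupp.mem_support_iff.1 hℓ)
  rw [dot_apply]
  calc |∑ i, ℓ i * k' i| ≤ ∑ i, |ℓ i * k' i| := Finset.abs_sum_le_sum_abs _ _
    _ ≤ ∑ _i : Fin N, (E : ℤ) * C := by
        refine Finset.sum_le_sum fun i _ => ?_
        rw [abs_mul]
        exact mul_le_mul (h3 i) (hk i) (abs_nonneg _) (by positivity)
    _ = ((N * C * E : ℕ) : ℤ) := by
        rw [Finset.sum_const, Finset.card_univ, Fintype.card_fin]
        push_cast
        ring

/-- bounded kernel vectors -/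
theorem ker (hE : ElimS) {m0 m h : ℕ} (hm : m0 ≤ m) (k : Fin N → ℤ) (A : Fin m0 → Fin N → P N)
    (hA : ∀ i j, A i j ∈ Bx N h) (g α : Fin N → R) (h1 : ∀ i, ∑ j, phi k (A i j) * α j = 0)
    (h2 : ∑ j, g j * α j ≠ 0) :
    ∃ β : Fin N → P N, (∀ j, β j ∈ Bx N (EE N m h)) ∧ (∀ i, phi k (∑ j, A i j * β j) = 0) ∧
      ∑ j, g j * phi k (β j) ≠ 0 := by
  obtain ⟨β, hβ, h3, h4⟩ := hE R (fun L => phi k '' Bx N L) (ht k) N m0 h (fun i j => phi k (A i j)) g α
    (fun i j => ⟨_, hA i j, rfl⟩) h1 h2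
  choose γ hγ hγβ using hβ
  refine ⟨γ, fun j => Bx_mono (EE_mono hm) (hγ j), fun i => ?_, ?_⟩
  · rw [map_sum, ← h3 i]
    exact Finset.sum_congr rfl fun j _ => by rw [map_mul, hγβ]
  · have : ∑ j, g j * phi k (γ j) = ∑ j, g j * β j := Finset.sum_congr rfl fun j _ => by rw [hγβ]
    rw [this]
    exact h4

/-- the assignment with given entries -/
noncomputable def mk (k : Fin N → ℤ) (a b c : Fin N → R) : ℕ → Hal :=
  fun i => if h : i < N then ⟨k ⟨i, h⟩, a ⟨i, h⟩, b ⟨i, h⟩, c ⟨i, h⟩⟩ else 1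

theorem mk_apply (k : Fin N → ℤ) (a b c : Fin N → R) (i : Fin N) : mk k a b c i = ⟨k i, a i, b i, c i⟩ := by
  simp [mk]

theorem Sup_zero {D : ℕ} : Sup D (0 : R) := fun n h => absurd (by simp) h

theorem Sup_one {D : ℕ} : Sup D (1 : R) := by
  intro n h
  have h0 : n = 0 := by
    by_contra h1
    refine h ?_
    rw [AddMonoidAlgebra.one_def, AddMonoidAlgebra.coeff_single, Finsupp.single_apply, if_neg (Ne.symm h1)]
  subst h0
  simp

theorem xb_mk {C D : ℕ} {k : Fin N → ℤ} {a b c : Fin N → R} (hk : ∀ i, |k i| ≤ (C : ℤ)) (ha : ∀ i, Sup D (a i))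
    (hb : ∀ i, Sup D (b i)) (hc : ∀ i, Sup D (c i)) : Xb N C D (mk k a b c) := by
  intro i hi
  have := mk_apply k a b c ⟨i, hi⟩
  simp only at this
  rw [this]
  exact ⟨hk _, ha _, hb _, hc _⟩

/-- the values at the assignment `mk` -/
theorem val_mk {F : Fm N} {g : Hal} {k : Fin N → ℤ} {α β : Fin N → P N} {c : Fin N → R}
    (h : F.Val (fun i : Fin N => mk k (fun i => phi k (α i)) (fun i => phi k (β i)) c i) g) :
    g.k = dot k F.l ∧ g.a = phi k (∑ i, F.A i * α i) ∧ g.b = phi k (∑ i, F.B i * β i) ∧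
      g.c = phi k (∑ i, ∑ j, F.G i j * (α i * β j)) + ∑ i, F.lam i • c i := by
  have hk := h.k
  have ha := h.a
  have hb := h.b
  have hc := h.c
  simp only [mk_apply] at hk ha hb hc
  refine ⟨hk, ?_, ?_, ?_⟩
  · rw [ha, map_sum]; simp only [map_mul]
  · rw [hb, map_sum]; simp only [map_mul]
  · rw [hc, map_sum]; simp only [map_sum, map_mul]

end LOC

open LOC

theorem loc (hW : WordS) (hE : ElimS) (hP : PhiS) : LocS := by
  intro N h m C Rel v x k' hm hb hctr hv hpat hC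
  have hw : ∀ w ∈ v :: Rel, ∃ F : Fm N, F.Bdd h ∧ ∀ x : ℕ → Hal, F.Val (fun i : Fin N => x i) (wval x w) := by
    intro w hw
    obtain ⟨F, hF, hF'⟩ := hW N w (hb w hw).2
    have hl : w.length ≤ h := (hb w hw).1
    exact ⟨F, ⟨fun i => (hF.l i).trans (by exact_mod_cast hl), fun i => Bx_mono hl (hF.A i),
      fun i => Bx_mono hl (hF.B i), fun i j => Bx_mono hl (hF.G i j)⟩, hF'⟩
  obtain ⟨Fv, hFv, hFv'⟩ := hw v List.mem_cons_self
  have hr : ∀ i : Fin Rel.length, ∃ F : Fm N, F.Bdd h ∧ ∀ x : ℕ → Hal, F.Val (fun i : Fin N => x i) (wval x Rel[i]) :=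
    fun i => hw _ (List.mem_cons_of_mem _ (List.getElem_mem _))
  choose F hF hF' using hr
  set E := EE N m h with hEdef
  set k : Fin N → ℤ := fun i : Fin N => (x i).k with hkdef
  have hcr : ∀ i : Fin Rel.length, (wval x Rel[i]).k = 0 ∧ (wval x Rel[i]).a = 0 ∧ (wval x Rel[i]).b = 0 :=
    fun i => hctr _ (List.getElem_mem _)
  -- transfer
  have tr : ∀ Φ ∈ Bx N (2 * E + h), (phi k Φ = 0 ↔ phi k' Φ = 0) := hP N (2 * E + h) k k' hpat
  have trl : ∀ ℓ : Fin N → ℤ, (∀ i, |ℓ i| ≤ (h : ℤ)) → (dot k ℓ = 0 ↔ dot k' ℓ = 0) := by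
    intro ℓ hℓ
    refine hpat ℓ fun i => (hℓ i).trans ?_
    push_cast
    linarith [Int.natCast_nonneg E, Int.natCast_nonneg h]
  -- the general construction
  have gen : ∀ (α β : Fin N → P N) (c : Fin N → R), (∀ i, α i ∈ Bx N E) → (∀ i, β i ∈ Bx N E) →
      (∀ i, Sup (N * C * E) (c i)) →
      (∀ i, phi k (∑ j, (F i).A j * α j) = 0) → (∀ i, phi k (∑ j, (F i).B j * β j) = 0) →
      wval (mk k' (fun i => phi k' (α i)) (fun i => phi k' (β i)) c) v ≠ 1 →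
      ∃ x' : ℕ → Hal, (∀ i : Fin N, (x' i).k = k' i) ∧ Xb N C (N * C * E) x' ∧
        (∀ r ∈ Rel, Ctr (wval x' r)) ∧ wval x' v ≠ 1 := by
    intro α β c hα hβ hc h1 h2 h3
    refine ⟨_, fun i => by rw [mk_apply], xb_mk hC (fun i => sup_phi hC (hα i)) (fun i => sup_phi hC (hβ i)) hc,
      ?_, h3⟩
    intro r hr
    obtain ⟨i, hi, rfl⟩ := List.getElem_of_mem hr
    obtain ⟨e1, e2, e3, -⟩ := val_mk (hF' ⟨i, hi⟩ (mk k' (fun i => phi k' (α i)) (fun i => phi k' (β i)) c))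
    refine ⟨?_, ?_, ?_⟩
    · have := (hF' ⟨i, hi⟩ x).k
      rw [(hcr ⟨i, hi⟩).1] at this
      exact e1.trans ((trl _ (hF ⟨i, hi⟩).l).1 this.symm)
    · refine e2.trans ((tr _ ?_).1 (h1 ⟨i, hi⟩))
      exact Bx_sum _ _ fun j _ => Bx_mono (by omega) (Bx_mul ((hF ⟨i, hi⟩).A j) (hα j))
    · refine e3.trans ((tr _ ?_).1 (h2 ⟨i, hi⟩))
      exact Bx_sum _ _ fun j _ => Bx_mono (by omega) (Bx_mul ((hF ⟨i, hi⟩).B j) (hβ j))
  have hA0 : ∀ i, ∑ j, phi k ((F i).A j) * (x j).a = 0 := fun i => by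
    rw [← (hcr i).2.1]; exact (hF' i x).a.symm
  have hB0 : ∀ i, ∑ j, phi k ((F i).B j) * (x j).b = 0 := fun i => by
    rw [← (hcr i).2.2]; exact (hF' i x).b.symm
  have z1 : ∀ i, phi k (∑ j, (F i).A j * (0 : P N)) = 0 := fun i => by simp
  have z2 : ∀ i, phi k (∑ j, (F i).B j * (0 : P N)) = 0 := fun i => by simp
  by_cases hvk : (wval x v).k = 0
  swap
  · refine gen (fun _ => 0) (fun _ => 0) (fun _ => 0) (fun _ => Bx_zero) (fun _ => Bx_zero) (fun _ => Sup_zero)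
      z1 z2 fun h1 => hvk ?_
    obtain ⟨e1, -⟩ := val_mk (hFv' (mk k' (fun i => phi k' ((fun _ => (0 : P N)) i))
      (fun i => phi k' ((fun _ => (0 : P N)) i)) (fun _ => 0)))
    rw [h1] at e1
    rw [(hFv' x).k]
    exact (trl _ hFv.l).2 e1.symm
  by_cases hva : (wval x v).a = 0
  swap
  · obtain ⟨β, hβ, h1, h2⟩ := ker hE hm k (fun i => (F i).A) (fun i j => (hF i).A j) (fun j => phi k (Fv.A j))
      (fun j => (x j).a) hA0 (by rw [← (hFv' x).a]; exact hva)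
    refine gen β (fun _ => 0) (fun _ => 0) hβ (fun _ => Bx_zero) (fun _ => Sup_zero) h1 z2 fun h3 => h2 ?_
    obtain ⟨-, e1, -⟩ := val_mk (hFv' (mk k' (fun i => phi k' (β i))
      (fun i => phi k' ((fun _ => (0 : P N)) i)) (fun _ => 0)))
    rw [h3] at e1
    have h4 := (tr (∑ i, Fv.A i * β i)
      (Bx_sum _ _ fun j _ => Bx_mono (by omega) (Bx_mul (hFv.A j) (hβ j)))).2 e1.symm
    rw [map_sum] at h4
    simpa only [map_mul] using h4
  by_cases hvb : (wval x v).b = 0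
  swap
  · obtain ⟨β, hβ, h1, h2⟩ := ker hE hm k (fun i => (F i).B) (fun i j => (hF i).B j) (fun j => phi k (Fv.B j))
      (fun j => (x j).b) hB0 (by rw [← (hFv' x).b]; exact hvb)
    refine gen (fun _ => 0) β (fun _ => 0) (fun _ => Bx_zero) hβ (fun _ => Sup_zero) z1 h1 fun h3 => h2 ?_
    obtain ⟨-, -, e1, -⟩ := val_mk (hFv' (mk k' (fun i => phi k' ((fun _ => (0 : P N)) i))
      (fun i => phi k' (β i)) (fun _ => 0)))
    rw [h3] at e1
    have h4 := (tr (∑ i, Fv.B i * β i)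
      (Bx_sum _ _ fun j _ => Bx_mono (by omega) (Bx_mul (hFv.B j) (hβ j)))).2 e1.symm
    rw [map_sum] at h4
    simpa only [map_mul] using h4
  have hvc : (wval x v).c ≠ 0 := fun h1 => hv (Hal.ext hvk hva hvb h1)
  by_cases hbil : ∑ i, ∑ j, phi k (Fv.G i j) * ((x i).a * (x j).b) = 0
  · -- the central part
    have h1 : ∑ i, Fv.lam i • (x i).c ≠ 0 := by
      intro h1
      refine hvc ?_
      rw [(hFv' x).c]
      show ∑ i, ∑ j, phi k (Fv.G i j) * ((x i).a * (x j).b) + ∑ i, Fv.lam i • (x i).c = 0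
      rw [hbil, h1, add_zero]
    obtain ⟨i0, -, hi0⟩ := Finset.exists_ne_zero_of_sum_ne_zero h1
    have hl : Fv.lam i0 ≠ 0 := fun h2 => hi0 (by rw [h2, zero_smul])
    refine gen (fun _ => 0) (fun _ => 0) (fun i => if i = i0 then 1 else 0) (fun _ => Bx_zero)
      (fun _ => Bx_zero) (fun i => ?_) z1 z2 fun h3 => ?_
    · by_cases hi : i = i0
      · simp only [if_pos hi]; exact Sup_one
      · simp only [if_neg hi]; exact Sup_zero
    · obtain ⟨-, -, -, e1⟩ := val_mk (hFv' (mk k' (fun i => phi k' ((fun _ => (0 : P N)) i))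
        (fun i => phi k' ((fun _ => (0 : P N)) i)) (fun i => if i = i0 then 1 else 0)))
      rw [h3] at e1
      simp only [mul_zero, Finset.sum_const_zero, map_zero, zero_add, smul_ite, smul_zero,
        Finset.sum_ite_eq', Finset.mem_univ, if_true, Hal.one_c] at e1
      have : Fv.lam i0 • (1 : R) ≠ 0 := smul_ne_zero hl one_ne_zero
      exact this e1.symm
  · -- the bilinear part
    obtain ⟨α, hα, h1, h2⟩ := ker hE hm k (fun i => (F i).A) (fun i j => (hF i).A j)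
      (fun i => ∑ j, phi k (Fv.G i j) * (x j).b) (fun j => (x j).a) hA0 (by
        intro h3
        refine hbil ?_
        rw [← h3]
        refine Finset.sum_congr rfl fun i _ => ?_
        rw [Finset.sum_mul]
        exact Finset.sum_congr rfl fun j _ => by ring)
    have h2' : ∑ j, (∑ i, phi k (Fv.G i j) * phi k (α i)) * (x j).b ≠ 0 := by
      intro h3
      refine h2 ?_
      rw [← h3]
      simp only [Finset.sum_mul]
      rw [Finset.sum_comm]
      exact Finset.sum_congr rfl fun i _ => Finset.sum_congr rfl fun j _ => by ring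
    obtain ⟨β, hβ, h4, h5⟩ := ker hE hm k (fun i => (F i).B) (fun i j => (hF i).B j)
      (fun j => ∑ i, phi k (Fv.G i j) * phi k (α i)) (fun j => (x j).b) hB0 h2'
    refine gen α β (fun _ => 0) hα hβ (fun _ => Sup_zero) h1 h4 fun h6 => h5 ?_
    obtain ⟨-, -, -, e1⟩ := val_mk (hFv' (mk k' (fun i => phi k' (α i)) (fun i => phi k' (β i)) (fun _ => 0)))
    rw [h6] at e1
    simp only [smul_zero, Finset.sum_const_zero, add_zero, Hal.one_c] at e1
    have h7 := (tr (∑ i, ∑ j, Fv.G i j * (α i * β j)) (Bx_sum _ _ fun i _ => Bx_sum _ _ fun j _ =>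
      Bx_mono (by omega) (Bx_mul (hFv.G i j) (Bx_mul (hα i) (hβ j))))).2 e1.symm
    rw [← h7]
    simp only [map_sum, map_mul, Finset.sum_mul]
    rw [Finset.sum_comm]
    exact Finset.sum_congr rfl fun i _ => Finset.sum_congr rfl fun j _ => by ring

end Pool.Agent.Lib.MP_43df1d_lc.GT
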