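import Pool.Agent.Lib.MP_43df1d_lc.GT.Iface

/-! Board GT for MP_43df1d_lc: row OPEN. -/

set_option autoImplicit false

namespace Pool.Agent.Lib.MP_43df1d_lc.GT

theorem openS : OpenS := by
  classical
  intro p Y hY
  obtain ⟨x, h1, h2⟩ := hY
  refine ⟨(p.1.map fun r => (wval x r).c).toFinset ∪ (p.2.map fun w => (wval x w).c).toFinset, ?_⟩
  intro Y' hY'
  refine ⟨x, ?_, ?_⟩
  · intro r hr
    obtain ⟨a, b⟩ := mem_cen.1 (h1 r hr)
    refine mem_cen.2 ⟨a, ?_⟩
    rw [hY']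
    · exact b
    · rw [Finset.mem_union, List.mem_toFinset, List.mem_map]
      exact Or.inl ⟨r, hr, rfl⟩
  · intro w hw hcen
    obtain ⟨a, b⟩ := mem_cen.1 hcen
    refine h2 w hw (mem_cen.2 ⟨a, ?_⟩)
    rw [← hY']
    · exact b
    · rw [Finset.mem_union, List.mem_toFinset, List.mem_toFinset, List.mem_map, List.mem_map]
      exact Or.inr ⟨w, hw, rfl⟩

end Pool.Agent.Lib.MP_43df1d_lc.GT
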