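import Pool.Agent.Lib.MP_43df1d_lc.GT.Iface

/-!
Row PERF: the marked groups `Hal / cen Y` form a perfect set.
-/

set_option autoImplicit false

namespace Pool.Agent.Lib.MP_43df1d_lc.GT

namespace PERF

open Topology Set

/-- the elements supported in `[-D, D]` -/
noncomputable def V (D : ℕ) : AddSubgroup R where
  carrier := {f | Sup D f}
  zero_mem' := by
    intro n hn
    exact absurd rfl hn
  add_mem' := by
    intro f g hf hg n hn
    by_cases h1 : f.coeff n = 0
    · by_cases h2 : g.coeff n = 0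
      · refine absurd ?_ hn
        have : (f + g).coeff n = f.coeff n + g.coeff n := by simp
        rw [this, h1, h2, add_zero]
      · exact hg n h2
    · exact hf n h1
  neg_mem' := by
    intro f hf
    rw [neg_eq]
    exact hf

theorem mem_V {D : ℕ} {f : R} : f ∈ V D ↔ Sup D f := Iff.rfl

theorem exists_sup (f : R) : ∃ D : ℕ, Sup D f := by
  refine ⟨f.coeff.support.sup Int.natAbs, fun n hn => ?_⟩
  have h1 : n ∈ f.coeff.support := Finsupp.mem_support_iff.2 hn
  have h2 : n.natAbs ≤ f.coeff.support.sup Int.natAbs := Finset.le_sup (f := Int.natAbs) h1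
  rw [Int.abs_eq_natAbs]
  exact_mod_cast h2

theorem sup_mono {D D' : ℕ} (h : D ≤ D') {f : R} (hf : Sup D f) : Sup D' f := fun n hn =>
  (hf n hn).trans (by exact_mod_cast h)

theorem exists_sup_finset (Z : Finset R) : ∃ D : ℕ, ∀ z ∈ Z, Sup D z := by
  classical
  induction Z using Finset.induction_on with
  | empty => exact ⟨0, by simp⟩
  | insert a s _ ih =>
    obtain ⟨D, hD⟩ := ih
    obtain ⟨D', hD'⟩ := exists_sup a
    refine ⟨max D D', fun z hz => ?_⟩
    rw [Finset.mem_insert] at hz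
    rcases hz with rfl | hz
    · exact sup_mono (le_max_right _ _) hD'
    · exact sup_mono (le_max_left _ _) (hD z hz)

theorem te_notMem (D : ℕ) : te ((D : ℤ) + 1) ∉ V D := by
  intro h
  have h1 := h ((D : ℤ) + 1) (by rw [coeff_te]; simp)
  rw [abs_of_nonneg (by positivity)] at h1
  omega

theorem exists_ne (Y : AddSubgroup R) (Z : Finset R) :
    ∃ Y' : AddSubgroup R, Y' ≠ Y ∧ ∀ z ∈ Z, z ∈ Y' ↔ z ∈ Y := by
  obtain ⟨D, hD⟩ := exists_sup_finset Z
  by_cases hY : Y = Y ⊓ V D
  · refine ⟨(Y ⊓ V D) ⊔ AddSubgroup.zmultiples (te ((D : ℤ) + 1)), ?_, ?_⟩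
    · intro h
      apply te_notMem D
      have h1 : te ((D : ℤ) + 1) ∈ (Y ⊓ V D) ⊔ AddSubgroup.zmultiples (te ((D : ℤ) + 1)) :=
        AddSubgroup.mem_sup_right (AddSubgroup.mem_zmultiples _)
      rw [h, hY] at h1
      exact h1.2
    · intro z hz
      constructor
      · intro h
        obtain ⟨y, hy, w, hw, rfl⟩ := AddSubgroup.mem_sup.1 h
        obtain ⟨n, rfl⟩ := AddSubgroup.mem_zmultiples_iff.1 hw
        have h2 : n • te ((D : ℤ) + 1) = 0 := by
          rcases Int.even_or_odd n with ⟨m, rfl⟩ | ⟨m, rfl⟩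
          · rw [add_smul, add_self]
          · exfalso
            have h3 : (2 * m + 1) • te ((D : ℤ) + 1) = te ((D : ℤ) + 1) := by
              rw [add_smul, two_mul, add_smul, add_self, zero_add, one_smul]
            have h4 : te ((D : ℤ) + 1) ∈ V D := by
              have h5 : y + te ((D : ℤ) + 1) ∈ V D := by
                have := hD _ hz
                rwa [h3] at this
              have h6 := (V D).sub_mem h5 hy.2
              rwa [add_sub_cancel_left] at h6
            exact te_notMem D h4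
        rw [h2, add_zero]
        exact hy.1
      · intro h
        exact AddSubgroup.mem_sup_left ⟨h, hD z hz⟩
  · refine ⟨Y ⊓ V D, fun h => hY h.symm, fun z hz => ?_⟩
    exact ⟨fun h => h.1, fun h => ⟨h, hD z hz⟩⟩

theorem pt_true (Y : AddSubgroup R) (w : FreeGroup ℕ) : pt Y w = true ↔ pr w ∈ cen Y := by simp [pt]

end PERF

open PERF in
theorem perf (h1 : CompS) (h2 : TopS) (h3 : ContS) (h4 : T2S) (h5 : InjS) : PerfS where
  ne := ⟨pt ⊥, ⊥, rfl⟩
  mark := by
    rintro _ ⟨Y, rfl⟩
    refine ⟨⟨(cen Y).comap pr, inferInstance, fun w => by rw [pt_true]; rfl⟩, 3, fun i hi => ?_⟩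
    rw [pt_true]
    have h : pr (FreeGroup.of i) = 1 := by
      rw [pr, FreeGroup.lift_apply_of]
      obtain ⟨j, rfl⟩ : ∃ j, i = j + 3 := ⟨i - 3, by omega⟩
      rfl
    rw [h]
    exact (cen Y).one_mem
  closed := by
    intro f _ _ hf
    have hc : CompactSpace (AddSubgroup R) := h1
    have hcomp : @IsCompact _ tau SH := @isCompact_range _ _ topY tau hc pt h3
    have hcl : @IsClosed _ tau SH := @IsCompact.isClosed _ tau h4 _ hcomp
    rwa [@IsClosed.closure_eq _ tau _ hcl] at hf
  perf := by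
    rintro _ ⟨Y, rfl⟩
    rw [@mem_closure_iff _ tau]
    intro O hO hY
    have hO' : IsOpen (pt ⁻¹' O) := @IsOpen.preimage _ _ topY tau _ h3 _ hO
    obtain ⟨Z, hZ⟩ := (h2 _).1.1 hO' Y hY
    obtain ⟨Y', hne, hag⟩ := exists_ne Y Z
    refine ⟨pt Y', hZ Y' hag, ⟨Y', rfl⟩, fun h => hne (h5 h)⟩

end Pool.Agent.Lib.MP_43df1d_lc.GT
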