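import Pool.Agent.Lib.MP_43df1d_lc.GT.Iface

/-!
Board GT for MP_43df1d_lc, row PHI: equations with formal exponents only depend on the pattern of the
exponents.
-/

set_option autoImplicit false

namespace Pool.Agent.Lib.MP_43df1d_lc.GT

namespace PHI

open Classical in
theorem coeff_phi {N : ℕ} (k : Fin N → ℤ) (Φ : P N) (n : ℤ) :
    (phi k Φ).coeff n = ∑ l ∈ Φ.coeff.support with dot k l = n, Φ.coeff l := by
  have e : (phi k Φ).coeff = Finsupp.mapDomain (dot k) Φ.coeff := rfl
  rw [e, Finsupp.mapDomain, Finsupp.sum_apply, Finsupp.sum, Finset.sum_filter]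
  refine Finset.sum_congr rfl fun l _ => ?_
  rw [Finsupp.single_apply]

theorem one_dir {N h : ℕ} {k k' : Fin N → ℤ} (hp : Pat (2 * h) k k') {Φ : P N} (hΦ : Φ ∈ Bx N h)
    (h0 : phi k Φ = 0) : phi k' Φ = 0 := by
  classical
  ext n
  rw [coeff_phi]
  by_cases hn : ∃ l0 ∈ Φ.coeff.support, dot k' l0 = n
  · obtain ⟨l0, hl0, rfl⟩ := hn
    have h1 := coeff_phi k Φ (dot k l0)
    rw [h0] at h1
    have h2 : Φ.coeff.support.filter (fun l => dot k' l = dot k' l0) =
        Φ.coeff.support.filter (fun l => dot k l = dot k l0) := by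
      apply Finset.filter_congr
      intro l hl
      have hb : ∀ i, |(l - l0) i| ≤ ((2 * h : ℕ) : ℤ) := by
        intro i
        have a1 := hΦ l (Finsupp.mem_support_iff.1 hl) i
        have a2 := hΦ l0 (Finsupp.mem_support_iff.1 hl0) i
        have a3 : |(l - l0) i| ≤ |l i| + |l0 i| := abs_sub _ _
        push_cast
        linarith
      have h3 := hp (l - l0) hb
      rw [map_sub, map_sub, sub_eq_zero, sub_eq_zero] at h3
      exact h3.symm
    rw [h2, ← h1]
    rfl
  · push Not at hn
    rw [Finset.filter_false_of_mem hn, Finset.sum_empty]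
    rfl

end PHI

/-- row PHI -/
theorem phiR : PhiS := by
  intro N h k k' hp Φ hΦ
  exact ⟨PHI.one_dir hp hΦ, PHI.one_dir (fun l hl => (hp l hl).symm) hΦ⟩

end Pool.Agent.Lib.MP_43df1d_lc.GT
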