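import Pool.Agent.Lib.MP_43df1d_lc.GT.Iface

/-!
Board GT for MP_43df1d_lc, row QUOT.
-/

set_option autoImplicit false

namespace Pool.Agent.Lib.MP_43df1d_lc.GT.QUOT

open Pool.Agent.Lib.MP_43df1d_lc.GT

theorem exists_sup (f : R) : ∃ D : ℕ, Sup D f := by
  refine ⟨∑ n ∈ f.coeff.support, n.natAbs, fun n hn => ?_⟩
  have h : n.natAbs ≤ ∑ m ∈ f.coeff.support, m.natAbs :=
    Finset.single_le_sum (f := fun m : ℤ => m.natAbs) (fun _ _ => Nat.zero_le _)
      (Finsupp.mem_support_iff.2 hn)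
  rw [Int.abs_eq_natAbs]
  exact_mod_cast h

theorem Sup.mono {D E : ℕ} {f : R} (h : Sup D f) (hDE : D ≤ E) : Sup E f := fun n hn =>
  (h n hn).trans (by exact_mod_cast hDE)

theorem pr_wval (y : ℕ → FreeGroup ℕ) (w : Wd) : pr (wval y w) = wval (fun i => pr (y i)) w :=
  (wval_map pr y w).symm

theorem pr_surj (h : WrepS) (g : Hal) : ∃ w : FreeGroup ℕ, pr w = g := by
  obtain ⟨Da, ha⟩ := exists_sup g.a
  obtain ⟨Db, hb⟩ := exists_sup g.b
  obtain ⟨Dc, hc⟩ := exists_sup g.c
  obtain ⟨u, -, -, hu⟩ := h (g.k.natAbs + Da + Db + Dc) g (by push_cast; omega)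
    (Sup.mono ha (by omega)) (Sup.mono hb (by omega)) (Sup.mono hc (by omega))
  refine ⟨wval FreeGroup.of u, ?_⟩
  rw [pr_wval, ← hu]
  congr 1
  funext i
  exact FreeGroup.lift_apply_of

end Pool.Agent.Lib.MP_43df1d_lc.GT.QUOT

namespace Pool.Agent.Lib.MP_43df1d_lc.GT

theorem quot (h : WrepS) : QuotS := by
  intro Y N _ hN σ
  have hN' : ∀ w, w ∈ N ↔ pr w ∈ cen Y := by
    intro w
    rw [hN w]
    unfold pt
    exact @decide_eq_true_iff _ (Classical.propDecidable _)
  have key : ∀ (y : ℕ → FreeGroup ℕ) (w : Wd),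
      wval (fun i => (QuotientGroup.mk' N (y i) : FreeGroup ℕ ⧸ N)) w = 1 ↔
        wval (fun i => pr (y i)) w ∈ cen Y := by
    intro y w
    rw [wval_map (QuotientGroup.mk' N) y w, ← QUOT.pr_wval, ← hN']
    exact QuotientGroup.eq_one_iff _
  constructor
  · intro hσ p hp hY
    obtain ⟨x, h1, h2⟩ := hY
    choose y hy using fun i => QUOT.pr_surj h (x i)
    have hyx : (fun i => pr (y i)) = x := funext hy
    obtain ⟨w, hw, hw1⟩ := hσ (fun i => QuotientGroup.mk' N (y i)) p hp (by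
      intro r hr
      rw [key, hyx]
      exact h1 r hr)
    rw [key, hyx] at hw1
    exact h2 w hw hw1
  · intro hσ x p hp hr
    choose y hy using fun i => QuotientGroup.mk'_surjective N (x i)
    have hyx : (fun i => QuotientGroup.mk' N (y i)) = x := funext hy
    by_contra hcon
    push Not at hcon
    refine hσ p hp ⟨fun i => pr (y i), fun r hr' => ?_, fun w hw => ?_⟩
    · rw [← key, hyx]; exact hr r hr'
    · rw [← key, hyx]; exact hcon w hw

end Pool.Agent.Lib.MP_43df1d_lc.GT
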