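import Pool.Agent.Lib.MP_43df1d_lc.GT.Iface

/-!
MP_43df1d_lc, board GT, row SATV.
-/

set_option autoImplicit false

namespace Pool.Agent.Lib.MP_43df1d_lc.GT

namespace SATV

theorem zsmul_cases (n : ℤ) (a : R) : n • a = 0 ∨ n • a = a := by
  rcases Int.even_or_odd n with ⟨m, rfl⟩ | ⟨m, rfl⟩
  · left
    rw [add_zsmul, add_self]
  · right
    rw [add_zsmul, two_mul, add_zsmul, add_self, zero_add, one_zsmul]

theorem sub_sum {α : Type} (f : α → R) (l : List α) (y : R)
    (hy : y ∈ AddSubgroup.closure (f '' {z | z ∈ l})) : ∃ T : List α, T.Sublist l ∧ y = (T.map f).sum := by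
  induction l generalizing y with
  | nil =>
    refine ⟨[], List.Sublist.refl _, ?_⟩
    simpa using hy
  | cons a l ih =>
    have e : f '' {z | z ∈ a :: l} = {f a} ∪ f '' {z | z ∈ l} := by
      ext z
      simp [eq_comm]
    rw [e, AddSubgroup.closure_union, AddSubgroup.mem_sup] at hy
    obtain ⟨u, hu, v, hv, rfl⟩ := hy
    obtain ⟨T, hT, rfl⟩ := ih v hv
    obtain ⟨n, rfl⟩ := AddSubgroup.mem_closure_singleton.1 hu
    rcases zsmul_cases n (f a) with h | h
    · exact ⟨T, hT.cons a, by rw [h, zero_add]⟩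
    · exact ⟨a :: T, hT.cons_cons a, by rw [h]; simp⟩

theorem mem_vws {Rel C : List Wd} {v : Wd} :
    v ∈ vws Rel C ↔ ∃ w ∈ C, ∃ T : List Wd, T.Sublist Rel ∧ w ++ T.flatten = v := by
  simp [vws, List.mem_sublists]

theorem prod_ctr (x : ℕ → Hal) (T : List Wd) (h : ∀ r ∈ T, Ctr (wval x r)) :
    Ctr (T.map (wval x)).prod ∧ (T.map (wval x)).prod.c = (T.map fun r => (wval x r).c).sum := by
  induction T with
  | nil => exact ⟨Ctr.one, rfl⟩
  | cons r T ih =>
    have h1 := h r (by simp)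
    obtain ⟨h2, h3⟩ := ih fun r' hr' => h r' (by simp [hr'])
    simp only [List.map_cons, List.prod_cons, List.sum_cons]
    exact ⟨h1.mul h2, by rw [h1.c_mul, h3]⟩

end SATV

open SATV

theorem satV : SatVS := by
  rintro ⟨Rel, C⟩
  constructor
  · rintro ⟨Y, x, h1, h2⟩
    refine ⟨x, fun r hr => (h1 r hr).1, ?_⟩
    intro v hv h
    obtain ⟨w, hw, T, hT, rfl⟩ := mem_vws.1 hv
    rw [wval_append, wval_flatten] at h
    have h3 : (T.map (wval x)).prod ∈ cen Y := by
      refine Subgroup.list_prod_mem _ ?_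
      intro g hg
      obtain ⟨r, hr, rfl⟩ := List.mem_map.1 hg
      exact h1 r (hT.subset hr)
    refine h2 w hw ?_
    rw [eq_inv_of_mul_eq_one_left h]
    exact (cen Y).inv_mem h3
  · rintro ⟨x, h1, h2⟩
    refine ⟨AddSubgroup.closure ((fun r => (wval x r).c) '' {r | r ∈ Rel}), x, ?_, ?_⟩
    · intro r hr
      exact ⟨h1 r hr, AddSubgroup.subset_closure ⟨r, hr, rfl⟩⟩
    · intro w hw h
      obtain ⟨h3, h4⟩ := mem_cen.1 h
      obtain ⟨T, hT, h5⟩ := sub_sum _ _ _ h4
      refine h2 (w ++ T.flatten) (mem_vws.2 ⟨w, hw, T, hT, rfl⟩) ?_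
      rw [wval_append, wval_flatten]
      obtain ⟨h6, h7⟩ := prod_ctr x T fun r hr => h1 r (hT.subset hr)
      have h8 := h3.mul h6
      ext1
      · exact h8.1
      · exact h8.2.1
      · exact h8.2.2
      · rw [h3.c_mul, h7, h5]
        exact add_self _

end Pool.Agent.Lib.MP_43df1d_lc.GT
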