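import Pool.Agent.Lib.MP_43df1d_lc.GT.Iface

/-! Board GT for MP_43df1d_lc: row SEP. -/

set_option autoImplicit false

namespace Pool.Agent.Lib.MP_43df1d_lc.GT

namespace SEP

theorem sup_mono {a b : ℕ} (hab : a ≤ b) {f : R} (h : Sup a f) : Sup b f := fun _ hn =>
  (h _ hn).trans (by exact_mod_cast hab)

theorem sup_zero (a : ℕ) : Sup a (0 : R) := fun n hn => absurd rfl hn

theorem sup_add {a : ℕ} {f g : R} (hf : Sup a f) (hg : Sup a g) : Sup a (f + g) := by
  intro n hn
  by_cases h : f.coeff n = 0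
  · refine hg n fun h' => hn ?_
    rw [AddMonoidAlgebra.coeff_add, Finsupp.add_apply, h, h', add_zero]
  · exact hf n h

theorem sup_sum {ι : Type} (s : Finset ι) (f : ι → R) {a : ℕ} (h : ∀ i ∈ s, Sup a (f i)) :
    Sup a (∑ i ∈ s, f i) := by
  classical
  induction s using Finset.induction_on with
  | empty => exact sup_zero a
  | insert j s hj ih =>
    rw [Finset.sum_insert hj]
    exact sup_add (h j (Finset.mem_insert_self _ _)) (ih fun i hi => h i (Finset.mem_insert_of_mem hi))

theorem sup_mul {a b : ℕ} {f g : R} (hf : Sup a f) (hg : Sup b g) : Sup (a + b) (f * g) := by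
  classical
  intro n hn
  have h1 : n ∈ (f * g).coeff.support := Finsupp.mem_support_iff.2 hn
  have h2 := AddMonoidAlgebra.support_coeff_mul_subset f g h1
  rw [Finset.mem_add] at h2
  obtain ⟨y, hy, z, hz, rfl⟩ := h2
  have hy' := hf y (Finsupp.mem_support_iff.1 hy)
  have hz' := hg z (Finsupp.mem_support_iff.1 hz)
  push_cast
  exact (abs_add_le y z).trans (add_le_add hy' hz')

theorem sup_smul {a : ℕ} (c : ZMod 2) {f : R} (hf : Sup a f) : Sup a (c • f) := by
  intro n hn
  refine hf n fun h => hn ?_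
  rw [AddMonoidAlgebra.coeff_smul_apply, h, smul_zero]

theorem coeff_te_mul (n m : ℤ) (f : R) : (te n * f).coeff m = f.coeff (m - n) := by
  rw [te, AddMonoidAlgebra.coeff_single_mul_apply, one_mul]
  congr 1
  ring

theorem sup_te_mul {a : ℕ} {f : R} (hf : Sup a f) (n : ℕ) : Sup (a + n) (te n * f) := by
  intro m hm
  rw [coeff_te_mul] at hm
  have h := hf _ hm
  rw [abs_le] at h ⊢
  push_cast
  omega

theorem sup_phi {N h C : ℕ} {k : Fin N → ℤ} (hk : ∀ i, |k i| ≤ (C : ℤ)) {Φ : P N}
    (hΦ : Φ ∈ Bx N h) : Sup (N * h * C) (phi k Φ) := by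
  classical
  intro n hn
  have h1 : n ∈ (Finsupp.mapDomain (dot k) Φ.coeff).support := by
    rw [Finsupp.mem_support_iff]
    exact hn
  have h2 := Finsupp.mapDomain_support h1
  rw [Finset.mem_image] at h2
  obtain ⟨l, hl, rfl⟩ := h2
  have hl' := hΦ l (Finsupp.mem_support_iff.1 hl)
  rw [dot_apply]
  calc |∑ i, l i * k i| ≤ ∑ i, |l i * k i| := Finset.abs_sum_le_sum_abs _ _
    _ ≤ ∑ _i : Fin N, (h : ℤ) * C := by
        refine Finset.sum_le_sum fun i _ => ?_
        rw [abs_mul]
        exact mul_le_mul (hl' i) (hk i) (abs_nonneg _) (by positivity)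
    _ = ((N * h * C : ℕ) : ℤ) := by
        rw [Finset.sum_const, Finset.card_univ, Fintype.card_fin, nsmul_eq_mul]
        push_cast
        ring

/-- disjoint windows -/
theorem window {W n : ℕ} (hn : n = 2 * W + 1) {f0 f1 f2 f3 : R} (h0 : Sup W f0) (h1 : Sup W f1)
    (h2 : Sup W f2) (h3 : Sup W f3)
    (h : f0 + te n * f1 + te (2 * n) * f2 + te (3 * n) * f3 = 0) :
    f0 = 0 ∧ f1 = 0 ∧ f2 = 0 ∧ f3 = 0 := by
  have hz : ∀ {f : R}, Sup W f → ∀ m : ℤ, (W : ℤ) < |m| → f.coeff m = 0 := by
    intro f hf m hm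
    by_contra hcon
    exact absurd (hf m hcon) (not_le.2 hm)
  have hc : ∀ m : ℤ, f0.coeff m + f1.coeff (m - n) + f2.coeff (m - 2 * n) +
      f3.coeff (m - 3 * n) = 0 := by
    intro m
    have := congrArg (fun f : R => f.coeff m) h
    simp only [AddMonoidAlgebra.coeff_add, Finsupp.add_apply, coeff_te_mul,
      AddMonoidAlgebra.coeff_zero, Finsupp.zero_apply] at this
    exact this
  have hbig : ∀ m : ℤ, |m| ≤ W → ∀ j : ℤ, j ≠ 0 → (W : ℤ) < |m + j * n| := by
    intro m hm j hj
    rw [abs_le] at hm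
    rw [lt_abs]
    subst hn
    push_cast
    rcases lt_or_gt_of_ne hj with h | h
    · right
      nlinarith
    · left
      nlinarith
  refine ⟨?_, ?_, ?_, ?_⟩
  · ext m
    rw [AddMonoidAlgebra.coeff_zero, Finsupp.zero_apply]
    by_cases hm : |m| ≤ (W : ℤ)
    · have e := hc m
      rw [hz h1 (m - n) (by have := hbig m hm (-1) (by norm_num); convert this using 2; ring),
        hz h2 (m - 2 * n) (by have := hbig m hm (-2) (by norm_num); convert this using 2; ring),
        hz h3 (m - 3 * n) (by have := hbig m hm (-3) (by norm_num); convert this using 2; ring),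
        add_zero, add_zero, add_zero] at e
      exact e
    · exact hz h0 m (not_le.1 hm)
  · ext m
    rw [AddMonoidAlgebra.coeff_zero, Finsupp.zero_apply]
    by_cases hm : |m| ≤ (W : ℤ)
    · have e := hc (m + n)
      rw [hz h0 (m + n) (by have := hbig m hm 1 (by norm_num); convert this using 2; ring),
        hz h2 (m + n - 2 * n) (by have := hbig m hm (-1) (by norm_num); convert this using 2; ring),
        hz h3 (m + n - 3 * n) (by have := hbig m hm (-2) (by norm_num); convert this using 2; ring),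
        add_zero, add_zero, zero_add, add_sub_cancel_right] at e
      exact e
    · exact hz h1 m (not_le.1 hm)
  · ext m
    rw [AddMonoidAlgebra.coeff_zero, Finsupp.zero_apply]
    by_cases hm : |m| ≤ (W : ℤ)
    · have e := hc (m + 2 * n)
      rw [hz h0 (m + 2 * n) (by have := hbig m hm 2 (by norm_num); convert this using 2),
        hz h1 (m + 2 * n - n) (by have := hbig m hm 1 (by norm_num); convert this using 2; ring),
        hz h3 (m + 2 * n - 3 * n) (by have := hbig m hm (-1) (by norm_num); convert this using 2; ring),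
        add_zero, zero_add, zero_add, add_sub_cancel_right] at e
      exact e
    · exact hz h2 m (not_le.1 hm)
  · ext m
    rw [AddMonoidAlgebra.coeff_zero, Finsupp.zero_apply]
    by_cases hm : |m| ≤ (W : ℤ)
    · have e := hc (m + 3 * n)
      rw [hz h0 (m + 3 * n) (by have := hbig m hm 3 (by norm_num); convert this using 2),
        hz h1 (m + 3 * n - n) (by have := hbig m hm 2 (by norm_num); convert this using 2; ring),
        hz h2 (m + 3 * n - 2 * n) (by have := hbig m hm 1 (by norm_num); convert this using 2; ring),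
        zero_add, zero_add, zero_add, add_sub_cancel_right] at e
      exact e
    · exact hz h3 m (not_le.1 hm)

end SEP

open SEP in
theorem sep (hWord : WordS) : SepS := by
  intro N h C D Rel V x x' hRel hV hk hX hX' hc hc'
  obtain ⟨W, hW⟩ : ∃ W, W = N * h * C + 2 * D := ⟨_, rfl⟩
  obtain ⟨n, hn⟩ : ∃ n, n = 2 * W + 1 := ⟨_, rfl⟩
  let y : ℕ → Hal := fun i => ⟨(x i).k, (x i).a + te n * (x' i).a,
    (x i).b + te (2 * n) * (x' i).b, (x i).c + te (3 * n) * (x' i).c⟩
  -- the value of a word at y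
  have key : ∀ w : Wd, w.length ≤ h → (∀ c ∈ w, c.1 < N) →
      (wval y w).k = (wval x w).k ∧ (wval x' w).k = (wval x w).k ∧
      (wval y w).a = (wval x w).a + te n * (wval x' w).a ∧
      (wval y w).b = (wval x w).b + te (2 * n) * (wval x' w).b ∧
      Sup W (wval x w).a ∧ Sup W (wval x' w).a ∧ Sup W (wval x w).b ∧ Sup W (wval x' w).b ∧
      Sup W (wval x w).c ∧ Sup W (wval x' w).c ∧
      ∃ Y X : R, Sup W Y ∧ Sup W X ∧
        (wval y w).c = (wval x w).c + te n * Y + te (2 * n) * X + te (3 * n) * (wval x' w).c := by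
    intro w hw hwN
    obtain ⟨F, hF, hval⟩ := hWord N w hwN
    obtain ⟨k, hkdef⟩ : ∃ k : Fin N → ℤ, k = fun i : Fin N => (x i).k := ⟨_, rfl⟩
    have hkx' : (fun i : Fin N => (x' i).k) = k := by
      rw [hkdef]
      funext i
      exact (hk i i.2).symm
    have hky : (fun i : Fin N => (y i).k) = k := hkdef.symm
    have vx := hval x
    have vx' := hval x'
    have vy := hval y
    obtain ⟨xk, xa, xb, xc⟩ := vx
    obtain ⟨xk', xa', xb', xc'⟩ := vx'
    obtain ⟨yk, ya, yb, yc⟩ := vy
    simp only [hkx'] at xk' xa' xb' xc'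
    simp only [hky] at yk ya yb yc
    simp only [← hkdef] at xk xa xb xc
    have hkC : ∀ i, |k i| ≤ (C : ℤ) := by
      intro i
      rw [hkdef]
      exact (hX i i.2).1
    have hNhC : N * w.length * C ≤ N * h * C :=
      Nat.mul_le_mul (Nat.mul_le_mul le_rfl hw) le_rfl
    have sA : ∀ i, Sup (N * h * C) (phi k (F.A i)) := fun i => sup_mono hNhC (sup_phi hkC (hF.A i))
    have sB : ∀ i, Sup (N * h * C) (phi k (F.B i)) := fun i => sup_mono hNhC (sup_phi hkC (hF.B i))
    have sG : ∀ i j, Sup (N * h * C) (phi k (F.G i j)) := fun i j =>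
      sup_mono hNhC (sup_phi hkC (hF.G i j))
    have lin : ∀ (f : Fin N → R) (g : ℕ → R), (∀ i, Sup (N * h * C) (f i)) →
        (∀ i < N, Sup D (g i)) → Sup W (∑ i : Fin N, f i * g i) := by
      intro f g hf hg
      refine sup_sum _ _ fun i _ => ?_
      exact sup_mono (by omega) (sup_mul (hf i) (hg i i.2))
    have bil : ∀ (g g' : ℕ → R), (∀ i < N, Sup D (g i)) → (∀ i < N, Sup D (g' i)) →
        Sup W (∑ i : Fin N, ∑ j : Fin N, phi k (F.G i j) * (g i * g' j)) := by
      intro g g' hg hg'
      refine sup_sum _ _ fun i _ => sup_sum _ _ fun j _ => ?_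
      exact sup_mono (by omega) (sup_mul (sG i j) (sup_mul (hg i i.2) (hg' j j.2)))
    have lam : ∀ (g : ℕ → R), (∀ i < N, Sup D (g i)) → Sup W (∑ i : Fin N, F.lam i • g i) := by
      intro g hg
      refine sup_sum _ _ fun i _ => ?_
      exact sup_mono (by omega) (sup_smul _ (hg i i.2))
    refine ⟨by rw [yk, xk], by rw [xk', xk], ?_, ?_, ?_, ?_, ?_, ?_, ?_, ?_,
      ∑ i : Fin N, ∑ j : Fin N, phi k (F.G i j) * ((x' i).a * (x j).b),
      ∑ i : Fin N, ∑ j : Fin N, phi k (F.G i j) * ((x i).a * (x' j).b), ?_, ?_, ?_⟩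
    · rw [ya, xa, xa', Finset.mul_sum, ← Finset.sum_add_distrib]
      refine Finset.sum_congr rfl fun i _ => ?_
      show _ * ((x i).a + te n * (x' i).a) = _
      ring
    · rw [yb, xb, xb', Finset.mul_sum, ← Finset.sum_add_distrib]
      refine Finset.sum_congr rfl fun i _ => ?_
      show _ * ((x i).b + te (2 * n) * (x' i).b) = _
      ring
    · rw [xa]; exact lin _ (fun i => (x i).a) sA fun i hi => (hX i hi).2.1
    · rw [xa']; exact lin _ (fun i => (x' i).a) sA fun i hi => (hX' i hi).2.1
    · rw [xb]; exact lin _ (fun i => (x i).b) sB fun i hi => (hX i hi).2.2.1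
    · rw [xb']; exact lin _ (fun i => (x' i).b) sB fun i hi => (hX' i hi).2.2.1
    · rw [xc]
      exact sup_add (bil (fun i => (x i).a) (fun i => (x i).b) (fun i hi => (hX i hi).2.1)
        fun i hi => (hX i hi).2.2.1) (lam (fun i => (x i).c) fun i hi => (hX i hi).2.2.2)
    · rw [xc']
      exact sup_add (bil (fun i => (x' i).a) (fun i => (x' i).b) (fun i hi => (hX' i hi).2.1)
        fun i hi => (hX' i hi).2.2.1) (lam (fun i => (x' i).c) fun i hi => (hX' i hi).2.2.2)
    · exact bil (fun i => (x' i).a) (fun i => (x i).b) (fun i hi => (hX' i hi).2.1)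
        fun i hi => (hX i hi).2.2.1
    · exact bil (fun i => (x i).a) (fun i => (x' i).b) (fun i hi => (hX i hi).2.1)
        fun i hi => (hX' i hi).2.2.1
    · rw [yc, xc, xc']
      have e3 : te (3 * (n : ℤ)) = te n * te (2 * n) := by
        rw [← te_add]
        congr 1
        ring
      have e1 : ∑ i : Fin N, ∑ j : Fin N, phi k (F.G i j) * ((y i).a * (y j).b) =
          ∑ i : Fin N, ∑ j : Fin N, phi k (F.G i j) * ((x i).a * (x j).b) +
          te n * ∑ i : Fin N, ∑ j : Fin N, phi k (F.G i j) * ((x' i).a * (x j).b) +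
          te (2 * n) * ∑ i : Fin N, ∑ j : Fin N, phi k (F.G i j) * ((x i).a * (x' j).b) +
          te (3 * n) * ∑ i : Fin N, ∑ j : Fin N, phi k (F.G i j) * ((x' i).a * (x' j).b) := by
        simp only [Finset.mul_sum]
        simp only [← Finset.sum_add_distrib]
        refine Finset.sum_congr rfl fun i _ => Finset.sum_congr rfl fun j _ => ?_
        show phi k (F.G i j) * (((x i).a + te n * (x' i).a) * ((x j).b + te (2 * n) * (x' j).b)) = _
        rw [e3]
        ring
      have e2 : ∑ i : Fin N, F.lam i • (y i).c = ∑ i : Fin N, F.lam i • (x i).c +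
          te (3 * n) * ∑ i : Fin N, F.lam i • (x' i).c := by
        simp only [Finset.mul_sum]
        simp only [← Finset.sum_add_distrib]
        refine Finset.sum_congr rfl fun i _ => ?_
        show F.lam i • ((x i).c + te (3 * n) * (x' i).c) = _
        rw [smul_add, mul_smul_comm]
      rw [e1, e2]
      ring
  refine ⟨y, fun i _ => rfl, ?_, ?_, ?_⟩
  · intro i hi
    obtain ⟨a1, a2, a3, a4⟩ := hX i hi
    obtain ⟨b1, b2, b3, b4⟩ := hX' i hi
    refine ⟨a1, ?_, ?_, ?_⟩
    · exact sup_add (sup_mono (by omega) a2) (sup_mono (by subst hn hW; generalize N * h * C = t; omega) (sup_te_mul b2 n))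
    · have := sup_te_mul b3 (2 * n)
      push_cast at this
      exact sup_add (sup_mono (by omega) a3) (sup_mono (by subst hn hW; generalize N * h * C = t; omega) this)
    · have := sup_te_mul b4 (3 * n)
      push_cast at this
      exact sup_add (sup_mono (by omega) a4) (sup_mono (by subst hn hW; generalize N * h * C = t; omega) this)
  · intro r hr
    obtain ⟨q1, q2, q3, q4, -⟩ := key r (hRel r hr).1 (hRel r hr).2
    obtain ⟨a1, a2, a3⟩ := hc r hr
    obtain ⟨b1, b2, b3⟩ := hc' r hr
    exact ⟨by rw [q1, a1], by rw [q3, a2, b2, mul_zero, add_zero],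
      by rw [q4, a3, b3, mul_zero, add_zero]⟩
  · intro v hv hne hy
    obtain ⟨q1, q2, q3, q4, s1, s2, s3, s4, s5, s6, Y, X, sY, sX, q5⟩ :=
      key v (hV v hv).1 (hV v hv).2
    rw [hy] at q1 q3 q4 q5
    simp only [Hal.one_k, Hal.one_a, Hal.one_b, Hal.one_c] at q1 q3 q4 q5
    obtain ⟨wa, wa', -, -⟩ := window hn s1 s2 (sup_zero W) (sup_zero W) (by
      rw [mul_zero, mul_zero, add_zero, add_zero]; exact q3.symm)
    obtain ⟨wb, -, wb', -⟩ := window hn s3 (sup_zero W) s4 (sup_zero W) (by
      rw [mul_zero, mul_zero, add_zero, add_zero]; exact q4.symm)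
    obtain ⟨wc, -, -, wc'⟩ := window hn s5 sY sX s6 q5.symm
    rcases hne with h | h
    · exact h (Hal.ext q1.symm wa wb wc)
    · exact h (Hal.ext (q2.trans q1.symm) wa' wb' wc')

end Pool.Agent.Lib.MP_43df1d_lc.GT
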