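import Pool.Agent.Lib.MP_43df1d_lc.GT.Iface

/-!
Board GT for MP_43df1d_lc, row SMALL (helper35): solvable systems have small solutions.
-/

set_option autoImplicit false

namespace Pool.Agent.Lib.MP_43df1d_lc.GT

namespace SMALL

theorem length_le_szW (w : Wd) : w.length ≤ szW w := by
  induction w with
  | nil => simp [szW]
  | cons c w ih => simp only [List.length_cons, szW]; omega

theorem letter_lt_szW (w : Wd) : ∀ c ∈ w, c.1 < szW w := by
  induction w with
  | nil => simp
  | cons c w ih =>
    intro d hd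
    simp only [szW]
    rcases List.mem_cons.1 hd with rfl | hd
    · omega
    · have := ih d hd; omega

theorem length_le_szL (l : List Wd) : l.length ≤ szL l := by
  induction l with
  | nil => simp [szL]
  | cons c w ih => simp only [List.length_cons, szL]; omega

theorem szW_le_szL (l : List Wd) : ∀ w ∈ l, szW w ≤ szL l := by
  induction l with
  | nil => simp
  | cons c l ih =>
    intro d hd
    simp only [szL]
    rcases List.mem_cons.1 hd with rfl | hd
    · omega
    · have := ih d hd; omega

theorem szW_append (u v : Wd) : szW (u ++ v) = szW u + szW v := by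
  induction u with
  | nil => simp [szW]
  | cons c u ih => simp only [List.cons_append, szW, ih]; omega

theorem szW_flatten (l : List Wd) : szW l.flatten ≤ szL l := by
  induction l with
  | nil => simp [szW, szL]
  | cons c l ih => simp only [List.flatten_cons, szW_append, szL]; omega

theorem szL_sublist {l l' : List Wd} (h : l.Sublist l') : szL l ≤ szL l' := by
  induction h with
  | slnil => simp
  | cons a h ih => simp only [szL]; omega
  | cons_cons a h ih => simp only [szL]; omega

theorem szW_vws {Rel C : List Wd} {v : Wd} (hv : v ∈ vws Rel C) : szW v ≤ szL Rel + szL C := by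
  simp only [vws, List.mem_flatMap, List.mem_map, List.mem_sublists] at hv
  obtain ⟨w, hw, T, hT, rfl⟩ := hv
  have h1 := szW_le_szL C w hw
  have h2 := szW_flatten T
  have h3 := szL_sublist hT
  rw [szW_append]
  omega

theorem length_vws (Rel C : List Wd) : (vws Rel C).length = C.length * 2 ^ Rel.length := by
  induction C with
  | nil => simp [vws]
  | cons c C ih =>
    simp only [vws] at ih
    simp only [vws, List.flatMap_cons, List.length_append, List.length_map, List.length_sublists,
      List.length_cons, ih]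
    ring

theorem Wb_of_szW {s : ℕ} {l : List Wd} (h : ∀ w ∈ l, szW w ≤ s) : Wb s s l := fun w hw =>
  ⟨(length_le_szW w).trans (h w hw), fun c hc => (letter_lt_szW w c hc).trans_le (h w hw)⟩

theorem Xb_mono {N C D D' : ℕ} (h : D ≤ D') {x : ℕ → Hal} (hx : Xb N C D x) : Xb N C D' x := by
  intro i hi
  obtain ⟨h1, h2, h3, h4⟩ := hx i hi
  have hc : (D : ℤ) ≤ (D' : ℤ) := by exact_mod_cast h
  exact ⟨h1, fun n hn => (h2 n hn).trans hc, fun n hn => (h3 n hn).trans hc,
    fun n hn => (h4 n hn).trans hc⟩

end SMALL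

open SMALL in
/-- row SMALL -/
theorem small (h1 : WordS) (h2 : PatS) (h3 : LocS) (h4 : SepS) : SmallS := by
  rintro s Rel C hs ⟨x, hxR, hxV⟩
  have hRel : ∀ w ∈ Rel, szW w ≤ s := fun w hw => (szW_le_szL Rel w hw).trans (by omega)
  have hV : ∀ w ∈ vws Rel C, szW w ≤ s := fun w hw => (szW_vws hw).trans hs
  have hWR : Wb s s Rel := Wb_of_szW hRel
  have hWV : Wb s s (vws Rel C) := Wb_of_szW hV
  have hlR : Rel.length ≤ s := (length_le_szL Rel).trans (by omega)
  obtain ⟨k', hk', hP⟩ := h2 s (2 * (2 * EE s s s + s)) (fun i : Fin s => (x i).k)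
  have hk'' : ∀ i, |k' i| ≤ (CB s : ℤ) := hk'
  -- local solutions
  have hloc : ∀ v ∈ vws Rel C, ∃ x' : ℕ → Hal, (∀ i : Fin s, (x' i).k = k' i) ∧
      Xb s (CB s) (s * CB s * EE s s s) x' ∧ (∀ r ∈ Rel, Ctr (wval x' r)) ∧ wval x' v ≠ 1 := by
    intro v hv
    exact h3 s s s (CB s) Rel v x k' hlR
      (by
        intro w hw
        rcases List.mem_cons.1 hw with rfl | hw
        · exact hWV _ hv
        · exact hWR _ hw) hxR (hxV v hv) hP hk''
  set q : ℕ := 6 * (s * s * CB s) + 3 with hq
  set D0 : ℕ := s * CB s * EE s s s with hD0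
  -- combination
  have hcomb : ∀ L : List Wd, (∀ v ∈ L, v ∈ vws Rel C) → ∃ y : ℕ → Hal,
      (∀ i : Fin s, (y i).k = k' i) ∧ Xb s (CB s) (14 ^ L.length * (D0 + q)) y ∧
      (∀ r ∈ Rel, Ctr (wval y r)) ∧ ∀ v ∈ L, wval y v ≠ 1 := by
    intro L
    induction L with
    | nil =>
      intro _
      refine ⟨fun i => if hi : i < s then ⟨k' ⟨i, hi⟩, 0, 0, 0⟩ else 1, ?_, ?_, ?_, by simp⟩
      · intro i; simp
      · intro i hi
        have h0 : ∀ D : ℕ, Sup D (0 : R) := by intro D n hn; simp at hn
        simp only [hi, dite_true]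
        exact ⟨hk'' _, h0 _, h0 _, h0 _⟩
      · intro r hr
        obtain ⟨F, hF, hval⟩ := h1 s r (hWR r hr).2
        have hx := hval x
        have hy := hval (fun i => if hi : i < s then (⟨k' ⟨i, hi⟩, 0, 0, 0⟩ : Hal) else 1)
        have hk0 : dot (fun i : Fin s => (x i).k) F.l = 0 := by rw [← hx.k]; exact (hxR r hr).1
        have hb : ∀ i, |F.l i| ≤ ((2 * (2 * EE s s s + s) : ℕ) : ℤ) := by
          intro i
          have h5 := hF.l i
          have h6 : (r.length : ℤ) ≤ (s : ℤ) := by exact_mod_cast (hWR r hr).1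
          push_cast
          have h7 : (0 : ℤ) ≤ (EE s s s : ℤ) := by positivity
          have h8 : (0 : ℤ) ≤ (s : ℤ) := by positivity
          linarith
        have hk1 := (hP F.l hb).1 hk0
        refine ⟨?_, ?_, ?_⟩
        · rw [hy.k]
          simpa using hk1
        · rw [hy.a]; simp
        · rw [hy.b]; simp
    | cons v L ih =>
      intro hL
      obtain ⟨y, hy1, hy2, hy3, hy4⟩ := ih (fun w hw => hL w (List.mem_cons_of_mem _ hw))
      obtain ⟨x', hx1, hx2, hx3, hx4⟩ := hloc v (hL v List.mem_cons_self)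
      have hle : D0 ≤ 14 ^ L.length * (D0 + q) :=
        (Nat.le_add_right D0 q).trans (Nat.le_mul_of_pos_left _ (by positivity))
      obtain ⟨z, hz1, hz2, hz3, hz4⟩ := h4 s s (CB s) (14 ^ L.length * (D0 + q)) Rel (vws Rel C) y x'
        hWR hWV (fun i hi => by
          have e1 := hy1 ⟨i, hi⟩
          have e2 := hx1 ⟨i, hi⟩
          simp only at e1 e2
          rw [e1, e2]) hy2 (Xb_mono hle hx2) hy3 hx3
      refine ⟨z, fun i => ?_, Xb_mono ?_ hz2, hz3, ?_⟩
      · rw [hz1 i i.2, hy1 i]
      · have hq' : q ≤ 14 ^ L.length * (D0 + q) :=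
          (Nat.le_add_left q D0).trans (Nat.le_mul_of_pos_left _ (by positivity))
        rw [List.length_cons, pow_succ]
        have : 14 ^ L.length * 14 * (D0 + q) = 14 * (14 ^ L.length * (D0 + q)) := by ring
        rw [this]
        omega
      · intro w hw
        rcases List.mem_cons.1 hw with rfl | hw'
        · exact hz4 _ (hL _ List.mem_cons_self) (Or.inr hx4)
        · exact hz4 _ (hL _ (List.mem_cons_of_mem _ hw')) (Or.inl (hy4 _ hw'))
  obtain ⟨y, -, hy2, hy3, hy4⟩ := hcomb (vws Rel C) (fun v hv => hv)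
  refine ⟨y, ⟨hy3, hy4⟩, Xb_mono ?_ hy2⟩
  rw [SB]
  have hlen : (vws Rel C).length ≤ s * 2 ^ s := by
    rw [length_vws]
    exact Nat.mul_le_mul ((length_le_szL C).trans (by omega)) (Nat.pow_le_pow_right (by norm_num) hlR)
  have : D0 + q = s * CB s * EE s s s + 6 * (s * s * CB s) + 3 := by rw [hD0, hq]; ring
  rw [this]
  exact Nat.mul_le_mul_right _ (Nat.pow_le_pow_right (by norm_num) hlen)

end Pool.Agent.Lib.MP_43df1d_lc.GT
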