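import Pool.Agent.Lib.MP_43df1d_lc.GT.Iface

/-!
Row TOPY: the space of subgroups is compact, its open and dense sets are the combinatorial ones.
-/

set_option autoImplicit false

namespace Pool.Agent.Lib.MP_43df1d_lc.GT

namespace TOPY

open Topology Set

theorem bY_inducing : IsInducing bY := ⟨rfl⟩

theorem bY_true (Y : AddSubgroup R) (f : R) : bY Y f = true ↔ f ∈ Y := by simp [bY]

theorem bY_eq (Y Y' : AddSubgroup R) (f : R) : bY Y f = bY Y' f ↔ (f ∈ Y ↔ f ∈ Y') := by
  rw [Bool.eq_iff_iff, bY_true, bY_true]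

theorem range_eq : range bY = {f : R → Bool | f 0 = true ∧ (∀ x y, f x = true → f y = true → f (x + y) = true) ∧
    ∀ x, f x = true → f (-x) = true} := by
  ext f
  constructor
  · rintro ⟨Y, rfl⟩
    refine ⟨(bY_true _ _).2 Y.zero_mem, ?_, ?_⟩
    · intro x y hx hy
      rw [bY_true] at *
      exact Y.add_mem hx hy
    · intro x hx
      rw [bY_true] at *
      exact Y.neg_mem hx
  · rintro ⟨h0, h1, h2⟩
    refine ⟨{ carrier := {x | f x = true}, zero_mem' := h0, add_mem' := fun {a b} ha hb => h1 a b ha hb,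
              neg_mem' := fun {a} ha => h2 a ha }, ?_⟩
    funext x
    rw [Bool.eq_iff_iff, bY_true]
    rfl

theorem isClosed_range : IsClosed (range bY) := by
  have hc : ∀ x : R, IsClopen {f : R → Bool | f x = true} := fun x =>
    (isClopen_discrete {true}).preimage (continuous_apply x)
  rw [range_eq]
  have e : {f : R → Bool | f 0 = true ∧ (∀ x y, f x = true → f y = true → f (x + y) = true) ∧
      ∀ x, f x = true → f (-x) = true} =
      {f : R → Bool | f 0 = true} ∩ ((⋂ x : R, ⋂ y : R, ({f : R → Bool | f x = true}ᶜ ∪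
        ({f : R → Bool | f y = true}ᶜ ∪ {f : R → Bool | f (x + y) = true}))) ∩
        ⋂ x : R, ({f : R → Bool | f x = true}ᶜ ∪ {f : R → Bool | f (-x) = true})) := by
    ext f
    simp only [mem_ofPred_eq, mem_inter_iff, mem_iInter, mem_union, mem_compl_iff]
    constructor
    · rintro ⟨h0, h1, h2⟩
      refine ⟨h0, fun x y => ?_, fun x => ?_⟩
      · have := h1 x y; tauto
      · have := h2 x; tauto
    · rintro ⟨h0, h1, h2⟩
      refine ⟨h0, fun x y => ?_, fun x => ?_⟩
      · have := h1 x y; tauto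
      · have := h2 x; tauto
  rw [e]
  refine (hc 0).isClosed.inter (IsClosed.inter ?_ ?_)
  · exact isClosed_iInter fun x => isClosed_iInter fun y =>
      ((hc x).compl.isClosed).union (((hc y).compl.isClosed).union (hc (x + y)).isClosed)
  · exact isClosed_iInter fun x => ((hc x).compl.isClosed).union (hc (-x)).isClosed

/-- basic neighbourhoods -/
def nb (Y : AddSubgroup R) (Z : Finset R) : Set (AddSubgroup R) := {Y' | ∀ z ∈ Z, z ∈ Y' ↔ z ∈ Y}

theorem isOpen_nb (Y : AddSubgroup R) (Z : Finset R) : IsOpen (nb Y Z) := by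
  have e : nb Y Z = bY ⁻¹' (⋂ z ∈ Z, {f : R → Bool | f z = bY Y z}) := by
    ext Y'
    simp only [nb, mem_ofPred_eq, mem_preimage, mem_iInter, bY_eq]
  rw [e]
  apply IsOpen.preimage bY_inducing.continuous
  refine isOpen_biInter_finset fun z _ => ?_
  have h : IsOpen ((fun f : R → Bool => f z) ⁻¹' {bY Y z}) :=
    (isOpen_discrete {bY Y z}).preimage (continuous_apply z)
  exact h

theorem exists_nb {O : Set (AddSubgroup R)} (hO : IsOpen O) {Y : AddSubgroup R} (hY : Y ∈ O) :
    ∃ Z : Finset R, nb Y Z ⊆ O := by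
  obtain ⟨V, hV, rfl⟩ := bY_inducing.isOpen_iff.1 hO
  obtain ⟨I, u, hu, hI⟩ := isOpen_pi_iff.1 hV (bY Y) hY
  refine ⟨I, fun Y' hY' => hI ?_⟩
  intro z hz
  have h1 : bY Y' z = bY Y z := (bY_eq _ _ _).2 (hY' z hz)
  rw [h1]
  exact (hu z hz).2

end TOPY

open TOPY in
theorem compY : CompS := by
  refine ⟨?_⟩
  rw [bY_inducing.isCompact_iff, Set.image_univ]
  exact isClosed_range.isCompact

open TOPY in
theorem topS : TopS := by
  intro O
  constructor
  · constructor
    · intro hO Y hY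
      obtain ⟨Z, hZ⟩ := exists_nb hO hY
      exact ⟨Z, fun Y' h => hZ h⟩
    · intro hO
      rw [isOpen_iff_forall_mem_open]
      intro Y hY
      obtain ⟨Z, hZ⟩ := hO Y hY
      exact ⟨nb Y Z, fun Y' h => hZ Y' h, isOpen_nb Y Z, fun z _ => Iff.rfl⟩
  · rw [dense_iff_inter_open]
    constructor
    · intro h Y Z
      obtain ⟨Y', h1, h2⟩ := h (nb Y Z) (isOpen_nb Y Z) ⟨Y, fun z _ => Iff.rfl⟩
      exact ⟨Y', h2, h1⟩
    · rintro h U hU ⟨Y, hY⟩
      obtain ⟨Z, hZ⟩ := exists_nb hU hY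
      obtain ⟨Y', h1, h2⟩ := h Y Z
      exact ⟨Y', hZ h2, h1⟩

end Pool.Agent.Lib.MP_43df1d_lc.GT
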