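import Pool.Agent.Lib.MP_43df1d_lc.GT.Iface

/-!
Board GT for MP_43df1d_lc, row WREP: the elements of `Hal` bounded by `D` are values of short words.
-/

set_option autoImplicit false

namespace Pool.Agent.Lib.MP_43df1d_lc.GT

namespace WREP

/-- `g` is the value of a word of length at most `L` in the generators -/
def Len (L : ℕ) (g : Hal) : Prop := ∃ u : Wd, u.length ≤ L ∧ (∀ c ∈ u, c.1 < 3) ∧ wval gen u = g

theorem Len.mul {L L' : ℕ} {g g' : Hal} (h : Len L g) (h' : Len L' g') : Len (L + L') (g * g') := by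
  obtain ⟨u, hu, hu3, rfl⟩ := h
  obtain ⟨v, hv, hv3, rfl⟩ := h'
  refine ⟨u ++ v, by rw [List.length_append]; omega, ?_, wval_append gen u v⟩
  intro c hc
  rcases List.mem_append.1 hc with h | h
  · exact hu3 c h
  · exact hv3 c h

theorem Len.mono {L L' : ℕ} {g : Hal} (h : Len L g) (hL : L ≤ L') : Len L' g := by
  obtain ⟨u, hu, hu3, rfl⟩ := h
  exact ⟨u, hu.trans hL, hu3, rfl⟩

theorem len_one : Len 0 1 := ⟨[], by simp, by simp, rfl⟩

theorem len_gen (i : ℕ) (hi : i < 3) : Len 1 (gen i) := by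
  refine ⟨[(i, true)], by simp, ?_, ?_⟩
  · intro c hc
    simp only [List.mem_singleton] at hc
    rw [hc]; exact hi
  · simp [wval]

theorem len_gen_inv (i : ℕ) (hi : i < 3) : Len 1 (gen i)⁻¹ := by
  refine ⟨[(i, false)], by simp, ?_, ?_⟩
  · intro c hc
    simp only [List.mem_singleton] at hc
    rw [hc]; exact hi
  · simp [wval]

theorem len_nat (n : ℕ) : Len n ⟨(n : ℤ), 0, 0, 0⟩ ∧ Len n ⟨-(n : ℤ), 0, 0, 0⟩ := by
  induction n with
  | zero => exact ⟨len_one, len_one⟩
  | succ n ih =>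
    refine ⟨?_, ?_⟩
    · have h := ih.1.mul (len_gen 0 (by norm_num))
      convert h using 1
      ext1 <;> simp [gen]
    · have h := ih.2.mul (len_gen_inv 0 (by norm_num))
      convert h using 1
      ext1
      · simp [gen]; ring
      · simp [gen]
      · simp [gen]
      · simp [gen]

theorem len_tau (n : ℤ) : Len n.natAbs ⟨n, 0, 0, 0⟩ := by
  have h := len_nat n.natAbs
  rcases Int.natAbs_eq n with e | e
  · have h1 := h.1
    rw [← e] at h1
    exact h1
  · have h1 := h.2
    rw [← e] at h1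
    exact h1

theorem len_A (n : ℤ) : Len (2 * n.natAbs + 1) ⟨0, te n, 0, 0⟩ := by
  have h := ((len_tau (-n)).mul (len_gen 1 (by norm_num))).mul (len_tau n)
  rw [Int.natAbs_neg] at h
  convert h using 1
  · ring
  · ext1 <;> simp [gen]

theorem len_B (n : ℤ) : Len (2 * n.natAbs + 1) ⟨0, 0, te n, 0⟩ := by
  have h := ((len_tau n).mul (len_gen 2 (by norm_num))).mul (len_tau (-n))
  rw [Int.natAbs_neg] at h
  convert h using 1
  · ring
  · ext1 <;> simp [gen]

theorem len_Z (n : ℤ) : Len (4 * n.natAbs + 4) ⟨0, 0, 0, te n⟩ := by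
  have h1 : Len (2 * n.natAbs + 2) ⟨0, te n, 1, te n⟩ := by
    have h := (len_A n).mul (len_gen 2 (by norm_num))
    convert h using 1
    ext1 <;> simp [gen]
  have h := h1.mul h1
  convert h using 1
  · ring
  · ext1
    · simp
    · simp
    · simp
    · simp only [Hal.mul_c, mul_one]
      rw [add_self, zero_add]

/-- finite sums of monomials -/
theorem len_sum (F : R → Hal) (h0 : F 0 = 1) (hadd : ∀ f f', F (f + f') = F f * F f') (L : ℕ)
    (s : Finset ℤ) (hs : ∀ n ∈ s, Len L (F (te n))) : Len (s.card * L) (F (∑ n ∈ s, te n)) := by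
  induction s using Finset.induction_on with
  | empty => simpa [h0] using len_one
  | insert a s ha ih =>
    rw [Finset.sum_insert ha, hadd, Finset.card_insert_of_notMem ha]
    have h := (hs a (Finset.mem_insert_self a s)).mul
      (ih fun n hn => hs n (Finset.mem_insert_of_mem hn))
    exact h.mono (by rw [Nat.add_mul]; omega)

theorem eq_sum (f : R) : f = ∑ n ∈ f.coeff.support, te n := by
  apply AddMonoidAlgebra.coeff_injective
  rw [AddMonoidAlgebra.coeff_sum]
  ext m
  rw [Finsupp.finsetSum_apply]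
  simp only [coeff_te]
  rw [Finset.sum_ite_eq' f.coeff.support m (fun _ => (1 : ZMod 2))]
  by_cases hm : f.coeff m = 0
  · simp [hm]
  · have : f.coeff m = 1 := by
      generalize f.coeff m = z at hm
      revert hm; revert z; decide
    simp [this]

theorem card_support {E : ℕ} {f : R} (hf : Sup E f) : f.coeff.support.card ≤ 2 * E + 1 := by
  have hsub : f.coeff.support ⊆ Finset.Icc (-(E : ℤ)) E := by
    intro n hn
    have := hf n (Finsupp.mem_support_iff.1 hn)
    rw [abs_le] at this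
    exact Finset.mem_Icc.2 this
  have := Finset.card_le_card hsub
  rw [Int.card_Icc] at this
  omega

theorem len_of_sup (F : R → Hal) (h0 : F 0 = 1) (hadd : ∀ f f', F (f + f') = F f * F f') (L E : ℕ)
    (hF : ∀ n : ℤ, |n| ≤ (E : ℤ) → Len L (F (te n))) {f : R} (hf : Sup E f) :
    Len ((2 * E + 1) * L) (F f) := by
  have h := len_sum F h0 hadd L f.coeff.support fun n hn => hF n (hf n (Finsupp.mem_support_iff.1 hn))
  rw [← eq_sum] at h
  exact h.mono (Nat.mul_le_mul_right L (card_support hf))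

theorem sup_mul_te {D : ℕ} {f : R} {k : ℤ} (hf : Sup D f) (hk : |k| ≤ (D : ℤ)) :
    Sup (2 * D) (f * te (-k)) := by
  intro n hn
  have h1 : (f * te (-k)).coeff n = f.coeff (n + k) := by
    have := AddMonoidAlgebra.coeff_mul_single_apply f (1 : ZMod 2) (-k) n
    rw [te, this]
    simp
  rw [h1] at hn
  have h2 := hf _ hn
  rw [abs_le] at h2 hk ⊢
  push_cast
  constructor <;> omega

end WREP

open WREP in
theorem wrep : WrepS := by
  intro D g hk ha hb hc
  have ha' := sup_mul_te ha hk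
  have hA : Len ((2 * (2 * D) + 1) * (2 * (2 * D) + 1)) ⟨0, g.a * te (-g.k), 0, 0⟩ := by
    refine len_of_sup (fun f => ⟨0, f, 0, 0⟩) rfl ?_ _ _ ?_ ha'
    · intro f f'
      ext1 <;> simp [add_comm]
    · intro n hn
      refine (len_A n).mono ?_
      rw [abs_le] at hn; omega
  have hB : Len ((2 * D + 1) * (2 * D + 1)) ⟨0, 0, g.b, 0⟩ := by
    refine len_of_sup (fun f => ⟨0, 0, f, 0⟩) rfl ?_ _ _ ?_ hb
    · intro f f'
      ext1 <;> simp [add_comm]
    · intro n hn
      refine (len_B n).mono ?_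
      rw [abs_le] at hn; omega
  have hZ : Len ((2 * D + 1) * (4 * D + 4)) ⟨0, 0, 0, g.c⟩ := by
    refine len_of_sup (fun f => ⟨0, 0, 0, f⟩) rfl ?_ _ _ ?_ hc
    · intro f f'
      ext1 <;> simp
    · intro n hn
      refine (len_Z n).mono ?_
      rw [abs_le] at hn; omega
  have hT : Len D ⟨g.k, 0, 0, 0⟩ := (len_tau g.k).mono (by rw [abs_le] at hk; omega)
  have h := ((hZ.mul hB).mul hA).mul hT
  have hg : (⟨0, 0, 0, g.c⟩ * ⟨0, 0, g.b, 0⟩ * ⟨0, g.a * te (-g.k), 0, 0⟩ * ⟨g.k, 0, 0, 0⟩ : Hal) = g := by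
    ext1 <;> simp [mul_assoc]
  rw [hg] at h
  refine h.mono ?_
  unfold WB
  nlinarith

end Pool.Agent.Lib.MP_43df1d_lc.GT
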