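import Pool.Agent.Lib.MP_43df1d_lc.GT.Base

/-!
Board GT for MP_43df1d_lc: the statements of the rows.
-/

set_option autoImplicit false

namespace Pool.Agent.Lib.MP_43df1d_lc.GT

/-! ### Row WORD -/

/-- the value of a word of length `L` in `N` letters is given by formal data bounded by `L` -/
def WordS : Prop := ∀ (N : ℕ) (w : Wd), (∀ c ∈ w, c.1 < N) →
  ∃ F : Fm N, F.Bdd w.length ∧ ∀ x : ℕ → Hal, F.Val (fun i : Fin N => x i) (wval x w)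

/-! ### Row ELIM -/

/-- a height filtration -/
structure Ht {K : Type} [CommRing K] (𝓗 : ℕ → Set K) : Prop where
  zero : (0 : K) ∈ 𝓗 0
  one : (1 : K) ∈ 𝓗 0
  mono : ∀ {a b : ℕ}, a ≤ b → 𝓗 a ⊆ 𝓗 b
  add : ∀ {a : ℕ} {x y : K}, x ∈ 𝓗 a → y ∈ 𝓗 a → x + y ∈ 𝓗 (a + 1)
  neg : ∀ {a : ℕ} {x : K}, x ∈ 𝓗 a → -x ∈ 𝓗 a
  mul : ∀ {a b : ℕ} {x y : K}, x ∈ 𝓗 a → y ∈ 𝓗 b → x * y ∈ 𝓗 (a + b)

/-- the height of the solutions of a system of `m` equations in `n` unknowns with coefficients of height `L` -/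
def EE (n m L : ℕ) : ℕ := (m + 1) * (2 ^ m * (L + 1) + n + 2)

/-- A linear functional `g` (arbitrary coefficients!) that does not vanish on the solutions of a system with
coefficients of height `L` does not vanish at some solution of height `EE n m L`. -/
def ElimS : Prop := ∀ (K : Type) [CommRing K] [IsDomain K] (𝓗 : ℕ → Set K), Ht 𝓗 →
  ∀ (n m L : ℕ) (ρ : Fin m → Fin n → K) (g α : Fin n → K), (∀ i j, ρ i j ∈ 𝓗 L) →
    (∀ i, ∑ j, ρ i j * α j = 0) → ∑ j, g j * α j ≠ 0 →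
    ∃ β : Fin n → K, (∀ j, β j ∈ 𝓗 (EE n m L)) ∧ (∀ i, ∑ j, ρ i j * β j = 0) ∧ ∑ j, g j * β j ≠ 0

/-! ### Rows PAT and PHI -/

/-- `k` and `k'` satisfy the same equations with coefficients bounded by `H` -/
def Pat {N : ℕ} (H : ℕ) (k k' : Fin N → ℤ) : Prop :=
  ∀ ℓ : Fin N → ℤ, (∀ i, |ℓ i| ≤ (H : ℤ)) → (dot k ℓ = 0 ↔ dot k' ℓ = 0)

def PB (N H : ℕ) : ℕ := (1 + (N * H + 1) * 2 ^ EE N ((2 * H + 1) ^ N) H) ^ ((2 * H + 1) ^ N)

def PatS : Prop := ∀ (N H : ℕ) (k : Fin N → ℤ),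
  ∃ k' : Fin N → ℤ, (∀ i, |k' i| ≤ (PB N H : ℤ)) ∧ Pat H k k'

def PhiS : Prop := ∀ (N h : ℕ) (k k' : Fin N → ℤ), Pat (2 * h) k k' →
  ∀ Φ ∈ Bx N h, (phi k Φ = 0 ↔ phi k' Φ = 0)

/-! ### Rows LOC, SEP, SMALL -/

/-- all words of the list have letters `< N` and length `≤ h` -/
def Wb (N h : ℕ) (l : List Wd) : Prop := ∀ w ∈ l, w.length ≤ h ∧ ∀ c ∈ w, c.1 < N

/-- the first `N` entries have exponents bounded by `C` and supports bounded by `D` -/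
def Xb (N C D : ℕ) (x : ℕ → Hal) : Prop :=
  ∀ i < N, |(x i).k| ≤ (C : ℤ) ∧ Sup D (x i).a ∧ Sup D (x i).b ∧ Sup D (x i).c

def LocS : Prop := ∀ (N h m C : ℕ) (Rel : List Wd) (v : Wd) (x : ℕ → Hal) (k' : Fin N → ℤ),
  Rel.length ≤ m → Wb N h (v :: Rel) → (∀ r ∈ Rel, Ctr (wval x r)) → wval x v ≠ 1 →
  Pat (2 * (2 * EE N m h + h)) (fun i : Fin N => (x i).k) k' → (∀ i, |k' i| ≤ (C : ℤ)) →
  ∃ x' : ℕ → Hal, (∀ i : Fin N, (x' i).k = k' i) ∧ Xb N C (N * C * EE N m h) x' ∧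
    (∀ r ∈ Rel, Ctr (wval x' r)) ∧ wval x' v ≠ 1

def SepS : Prop := ∀ (N h C D : ℕ) (Rel V : List Wd) (x x' : ℕ → Hal),
  Wb N h Rel → Wb N h V → (∀ i < N, (x i).k = (x' i).k) → Xb N C D x → Xb N C D x' →
  (∀ r ∈ Rel, Ctr (wval x r)) → (∀ r ∈ Rel, Ctr (wval x' r)) →
  ∃ y : ℕ → Hal, (∀ i < N, (y i).k = (x i).k) ∧ Xb N C (13 * D + 6 * (N * h * C) + 3) y ∧
    (∀ r ∈ Rel, Ctr (wval y r)) ∧ ∀ v ∈ V, (wval x v ≠ 1 ∨ wval x' v ≠ 1) → wval y v ≠ 1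

def CB (s : ℕ) : ℕ := PB s (2 * (2 * EE s s s + s))

def SB (s : ℕ) : ℕ := 14 ^ (s * 2 ^ s) * (s * CB s * EE s s s + 6 * (s * s * CB s) + 3)

def SmallS : Prop := ∀ (s : ℕ) (Rel C : List Wd), szL Rel + szL C ≤ s →
  (∃ x, Sol x Rel (vws Rel C)) → ∃ x, Sol x Rel (vws Rel C) ∧ Xb s (CB s) (SB s) x

/-! ### Row SATV -/

def SatVS : Prop := ∀ p : List Wd × List Wd, SatY p ↔ ∃ x, Sol x p.1 (vws p.1 p.2)

/-! ### Rows WREP, COMP, BND, DEC -/

def WB (D : ℕ) : ℕ := 40 * (D + 1) ^ 2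

/-- elements bounded by `D` are values of words of length `WB D` in the generators -/
def WrepS : Prop := ∀ (D : ℕ) (g : Hal), |g.k| ≤ (D : ℤ) → Sup D g.a → Sup D g.b → Sup D g.c →
  ∃ u : Wd, u.length ≤ WB D ∧ (∀ c ∈ u, c.1 < 3) ∧ wval gen u = g

def OneS : Prop := PrimrecPred fun u : Wd => wval gen u = 1

def CtrS : Prop := PrimrecPred fun u : Wd => Ctr (wval gen u)

def BndS : Prop := Primrec fun s : ℕ => WB (CB s + SB s)

def DecS : Prop := PrimrecPred SatY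

/-! ### The space of the subgroups `Y` -/

/-- open sets of subgroups (pointwise convergence), combinatorially -/
def OpenY (O : Set (AddSubgroup R)) : Prop :=
  ∀ Y ∈ O, ∃ Z : Finset R, ∀ Y' : AddSubgroup R, (∀ z ∈ Z, z ∈ Y' ↔ z ∈ Y) → Y' ∈ O

/-- dense sets of subgroups, combinatorially -/
def DenseY (O : Set (AddSubgroup R)) : Prop :=
  ∀ (Y : AddSubgroup R) (Z : Finset R), ∃ Y' ∈ O, ∀ z ∈ Z, z ∈ Y' ↔ z ∈ Y

/-- the subgroups `Y` such that `Hal / cen Y` solves the system -/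
def Slv (p : List Wd × List Wd) : Set (AddSubgroup R) :=
  {Y | ∃ x : ℕ → Hal, (∀ r ∈ p.1, wval x r ∈ cen Y) ∧ ∀ w ∈ p.2, wval x w ∉ cen Y}

def OpenS : Prop := ∀ p, OpenY (Slv p)

def DenseS : Prop := ∀ p, SatY p → DenseY (Slv p)

/-- in the marked group of `Y`, a universal sentence holds iff `Y` solves none of its systems -/
def QuotS : Prop := ∀ (Y : AddSubgroup R) (N : Subgroup (FreeGroup ℕ)) [N.Normal],
  (∀ w, w ∈ N ↔ pt Y w = true) → ∀ σ : USent, (σ.holds (FreeGroup ℕ ⧸ N) ↔ ∀ p ∈ σ, Y ∉ Slv p)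

open Classical in
/-- the indicator function of a subgroup -/
noncomputable def bY (Y : AddSubgroup R) : R → Bool := fun f => decide (f ∈ Y)

/-- the topology of pointwise convergence on the set of subgroups -/
noncomputable instance topY : TopologicalSpace (AddSubgroup R) :=
  TopologicalSpace.induced bY Pi.topologicalSpace

def CompS : Prop := CompactSpace (AddSubgroup R)

def TopS : Prop := ∀ O : Set (AddSubgroup R), (IsOpen O ↔ OpenY O) ∧ (Dense O ↔ DenseY O)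

def ContS : Prop := @Continuous _ _ topY tau pt

def InjS : Prop := Function.Injective pt

def T2S : Prop := @T2Space _ tau

def PerfS : Prop := IsPerf SH

def GenOpenS : Prop := ∀ (P : (G : Type) → [Group G] → Prop) (O : Set (AddSubgroup R)), OpenY O → DenseY O →
  (∀ Y ∈ O, ∀ (N : Subgroup (FreeGroup ℕ)) [N.Normal], (∀ w, w ∈ N ↔ pt Y w = true) → P (FreeGroup ℕ ⧸ N)) →
  Gen SH P

def BaireS : Prop := ∀ (P Q : (G : Type) → [Group G] → Prop), Gen SH P → Gen SH Q →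
  ∃ (N : Subgroup (FreeGroup ℕ)) (_ : N.Normal), P (FreeGroup ℕ ⧸ N) ∧ Q (FreeGroup ℕ ⧸ N)

/-! ### The theorem -/

def T2T : Prop := IsPerf SH ∧
  (∀ β : BSent, Gen SH (fun G _ => β.holds G) ∨ Gen SH (fun G _ => ¬ β.holds G)) ∧
  ComputablePred fun β : BSent => Gen SH (fun G _ => β.holds G)

end Pool.Agent.Lib.MP_43df1d_lc.GT
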